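import Mathlib
import Pool.Agent.U974.QB.Lf
import Pool.Agent.U974.TW.Fld4

/-!
# Beilinson's conjecture in every odd degree for quadric bundles over the fields generated by the square roots of
# prime tuples, for a positive proportion of all tuples of shifts

`E_a : y² = x³ - 35 a² x - 98 a³` is the quadratic twist by `a` of `X_0(49)`. Let

  `Δ_{a,b}(x, y) = -3 (16 b³ x⁶ - 15 a b² x⁴ y² - 15 a² b x² y⁴ + 16 a³ y⁶)`.

Let `K` be a number field. A quadric bundle over `K` of relative dimension `2 k` over the line with the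
discriminant `Δ_{a,b}`, `a, b ∈ 𝓞 K`, is given by a symmetric matrix `S` of size `2 k + 2` whose entries `S i j` are
binary forms over `𝓞 K` of degree `(d i + d j) / 2` (the `d i` of the same parity), with
`det S = (-1)^(k+1) e² Δ_{a,b}`, `e ≠ 0`. It is the variety `Y : ∑ S i j (x, y) z_i z_j = 0`, `(x : y) ∈ ℙ¹`,
`(z) ∈ ℙ^(2k+1)`, smooth and projective over `K` (and so over `ℚ`), of dimension `n = 2 k + 1`; for `k = 0` it is the
curve `C : w² = Δ_{a,b}` of genus two. The only odd cohomology is `H^(2k+1)(Y) = H¹(C)(-k)`, the Jacobian of `C` is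
isogenous to `E_a × E_b`, and `CH^(k+1)(Y)⁰ ⊗ ℚ = Jac(C)(K) ⊗ ℚ`. (These facts are not formalized; the `L`-function
below is the one given by the numbers of points of `Y` over all finite extensions of the residue fields of the good
places of `K`, and the group is given by the `K`-rational points of `E_a` and `E_b`.) So for `i = 2 k + 1`,
`m = k + 1 = n + 1 - m` the parts (i), (ii), (iii) of the conjecture hold, with `0 = 0`, if `E_a(K)` and `E_b(K)` are
finite and the `L`-function is not zero at `k + 1`.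

`T` is ANY finite set of primes `≡ 1 mod 4` (for instance the empty set) and `N` any number prime to `7`. There are
an auxiliary prime `r ≡ 1 mod 4 N` and a bound `B` such that in EVERY set `W` of at least `δ x` integers of `[0, x]`
at least the proportion `c(δ) > 0` of all the `x ^ m` vectors `h_1 < ... < h_m` have their entries in `W` and
satisfy: for EVERY graph `G` with the vertices `1, ..., m` there is `d ∈ {1, r}` such that for infinitely many `n`
the numbers `p_i = n + h_i` are primes, `1` modulo `28 N`, at most `B` primes lie at distance at most `Y` from `n`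
(for every `Y`), and, for ALL `J ⊆ T`:

* for ALL number fields `K ⊆ ℚ(√q : q ∈ J)` (for `J = ∅` this is `ℚ`) and ALL quadric bundles over `K` of ANY relative
  dimension `2 k` with ANY discriminant `Δ_{a,b}`, where `a` and `b` are products of nonzero squares of `𝓞 K` and
  numbers `D = ∏ U d ∏_S p_i` with `E_M(ℚ)` finite and `Ш(E_M/ℚ)[2] = 0` for the `M = ∏ (U ∆ V)`, `V ⊆ J`, and an
  odd number of rooted spanning forests of `G[S]` (for instance ALL `S` for the graph without edges), the parts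
  (i), (ii), (iii) hold as above;
* the same for ALL number fields `K ⊆ ℚ(√p_i : i ∈ S; √q : q ∈ J)`, if every vertex of `S` has at most one neighbour
  in `S` (for instance all `S` for the graph without edges), with the numbers `D = ∏ U d ∏_{S'} p_i`, `S' ⊆ S`.

Proof. The point counts are helper41's (`U41/QB`) for coefficients in any ring and over any finite field; the Euler
products over the places of `K` and the finiteness of `E_D(K)` are from `U974/TW/Fld3`, `Fld4` and `U80/MQ`; the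
prime tuples are those of `Pool/Agent/U974/PP` and `U974/TW/FldP`: for a random tuple of `K` shifts, `K` large, every
difference has a private large prime factor to the first power; modulo these primes the class of `n` is chosen such
that the symbols between the primes which the theorem of Maynard and Tao finds are those of a Paley graph, whatever
the primes are.
-/

set_option autoImplicit false

open scoped Classical

open WeierstrassCurve NumberField IsDedekindDomain
open scoped symmDiff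

namespace Pool.Agent.Results.MP_29b22a_nt.BundlesOverTupleFields

open Pool.Agent.TH841.NF.D (Sha)

/-- the curve `y² = x³ - 35 D² x - 98 D³` over `ℚ` -/
def curve (D : ℕ) : WeierstrassCurve ℚ :=
  { a₁ := 0, a₂ := 0, a₃ := 0, a₄ := ((-35 * (D : ℤ) ^ 2 : ℤ) : ℚ), a₆ := ((-98 * (D : ℤ) ^ 3 : ℤ) : ℚ) }

/-- `E_D(ℚ)` is finite and `Ш(E_D/ℚ)` has no element of order two -/
def TrivialTwo (D : ℕ) : Prop :=
  Finite (curve D).toAffine.Point ∧ ∀ x : Sha (curve D), 2 • x = 0 → x = 0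

section bundles

open MvPolynomial

/-- the binary sextic form `Δ_{a,b} = -3 (16 b³ x⁶ - 15 a b² x⁴ y² - 15 a² b x² y⁴ + 16 a³ y⁶)` -/
noncomputable def disc {R : Type} [CommRing R] (a b : R) : MvPolynomial (Fin 2) R :=
  -3 * (16 * C (b ^ 3) * X 0 ^ 6 - 15 * C (a * b ^ 2) * (X 0 ^ 4 * X 1 ^ 2)
    - 15 * C (a ^ 2 * b) * (X 0 ^ 2 * X 1 ^ 4) + 16 * C (a ^ 3) * X 1 ^ 6)

/-- `S` is the matrix of a quadric bundle of relative dimension `2 k` over the line with discriminant
`e² Δ_{a,b}`: it is symmetric, its entries are forms of the degrees `(d i + d j) / 2` for numbers `d i` of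
the same parity, and its determinant is `(-1)^(k+1) e² Δ_{a,b}`, `e ≠ 0`. -/
def IsBundle {R : Type} [CommRing R] (k : ℕ) (a b e : R)
    (S : Matrix (Fin (2 * k + 2)) (Fin (2 * k + 2)) (MvPolynomial (Fin 2) R)) : Prop :=
  S.IsSymm ∧ (∃ d : Fin (2 * k + 2) → ℕ, (∀ i j, d i % 2 = d j % 2) ∧
    ∀ i j, (S i j).IsHomogeneous ((d i + d j) / 2)) ∧
  e ≠ 0 ∧ S.det = (-1) ^ (k + 1) * C (e ^ 2) * disc a b

/-- The pairs of a nonzero `(x, y)` and a nonzero `z` with coordinates in `F` and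
`∑ S i j (x, y) z_i z_j = 0`; every point of `Y` over `F` is given by `(#F - 1)²` of them. -/
def solutions {n : ℕ} {R : Type} [CommRing R] (S : Matrix (Fin n) (Fin n) (MvPolynomial (Fin 2) R))
    {F : Type} [Field F] (φ : R →+* F) : Set ((Fin 2 → F) × (Fin n → F)) :=
  {w | w.1 ≠ 0 ∧ w.2 ≠ 0 ∧ ∑ i, ∑ j, eval₂ φ w.1 (S i j) * w.2 i * w.2 j = 0}

variable {K : Type} [Field K] [NumberField K]

/-- `A` is the multiset of the eigenvalues of the Frobenius at the place `v` on `H^(2k+1)(Y)`: for every finite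
extension `F` of the residue field (given by `φ : 𝓞 K → F` with kernel `v`) with `q_v ^ r` elements the number of
the points of `Y` over `F` is `(#F + 1) (1 + #F + ... + #F^(2k)) - ∑ α^r` (the first summand is the contribution of
the even cohomology, which is spanned by algebraic classes). -/
def IsFrobenius (k : ℕ) (S : Matrix (Fin (2 * k + 2)) (Fin (2 * k + 2)) (MvPolynomial (Fin 2) (𝓞 K)))
    (v : HeightOneSpectrum (𝓞 K)) (A : Multiset ℂ) : Prop :=
  ∀ (F : Type) [Field F] [Finite F] (φ : 𝓞 K →+* F), RingHom.ker φ = v.asIdeal → ∀ r : ℕ,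
    Nat.card F = (Ideal.absNorm v.asIdeal) ^ r →
    ((solutions S φ).ncard : ℂ) = ((Nat.card F : ℂ) - 1) ^ 2 * (((Nat.card F : ℂ) + 1) *
      ∑ j ∈ Finset.range (2 * k + 1), (Nat.card F : ℂ) ^ j - (A.map (fun α => α ^ r)).sum)

/-- `L` is entire and equal for `Re s > k + 3 / 2` to the Euler product of `L(H^(2k+1)(Y), s)` over the
places not dividing `B`: at these places there are `4 = dim H^(2k+1)(Y)` eigenvalues, of absolute value
`q_v ^ (k + 1 / 2)`. -/
def IsLFunction (k : ℕ) (S : Matrix (Fin (2 * k + 2)) (Fin (2 * k + 2)) (MvPolynomial (Fin 2) (𝓞 K)))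
    (B : 𝓞 K) (L : ℂ → ℂ) : Prop :=
  Differentiable ℂ L ∧ ∃ A : HeightOneSpectrum (𝓞 K) → Multiset ℂ,
    (∀ v, B ∉ v.asIdeal → IsFrobenius k S v (A v) ∧ (A v).card = 4 ∧
      ∀ α ∈ A v, ‖α‖ ^ 2 = ((Ideal.absNorm v.asIdeal : ℕ) : ℝ) ^ (2 * k + 1)) ∧
    ∀ s : ℂ, (k : ℝ) + 3 / 2 < s.re →
      HasProd (fun v : {v : HeightOneSpectrum (𝓞 K) // B ∉ v.asIdeal} =>
        ((A v.1).map (fun α => (1 - α * ((Ideal.absNorm v.1.asIdeal : ℕ) : ℂ) ^ (-s))⁻¹)).prod) (L s)

/-- the `K`-rational points of `E_a : y² = x³ - 35 a² x - 98 a³` (without the point at infinity) -/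
def points (a : 𝓞 K) : Set (K × K) :=
  {q | q.2 ^ 2 = q.1 ^ 3 - 35 * (a : K) ^ 2 * q.1 - 98 * (a : K) ^ 3}

/-- `E_a(K)` and `E_b(K)` are finite, and `L(H^(2k+1)(Y), s)`, without the factors at the places dividing
`42 a b e`, is entire and not zero at the centre `s = k + 1`. -/
def RankZero (k : ℕ) (a b e : 𝓞 K)
    (S : Matrix (Fin (2 * k + 2)) (Fin (2 * k + 2)) (MvPolynomial (Fin 2) (𝓞 K))) : Prop :=
  (points a).Finite ∧ (points b).Finite ∧
    ∃ L : ℂ → ℂ, IsLFunction k S (42 * a * b * e) L ∧ L (k + 1) ≠ 0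

variable (K) in
/-- For all products `a`, `b` of elements of `𝒟` and nonzero squares of `𝓞 K` and for all `k` there are quadric
bundles over `K` of relative dimension `2 k` with the discriminant `Δ_{a,b}`, and ALL of them (for all `e`)
satisfy `RankZero`. -/
def AllBundles (𝒟 : Set ℕ) : Prop :=
  ∀ D ∈ 𝒟, ∀ D' ∈ 𝒟, ∀ t t' : 𝓞 K, t ≠ 0 → t' ≠ 0 → ∀ (k : ℕ) (a b : 𝓞 K), a = (D : 𝓞 K) * t ^ 2 →
    b = (D' : 𝓞 K) * t' ^ 2 → (∃ S, IsBundle k a b 1 S) ∧ ∀ (e : 𝓞 K) S, IsBundle k a b e S → RankZero k a b e S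

end bundles

/-- the field generated by the square roots of the elements of `J` -/
noncomputable def Roots (J : Finset ℕ) : IntermediateField ℚ ℂ :=
  IntermediateField.adjoin ℚ {z : ℂ | ∃ q ∈ J, z ^ 2 = (q : ℂ)}

/-- the determinant of the matrix `1 + Laplacian` of the subgraph of `G` induced on `S` is odd -/
def OddForests {m : ℕ} (G : SimpleGraph (Fin m)) (S : Finset (Fin m)) : Prop :=
  ((1 : Matrix (S : Set (Fin m)) (S : Set (Fin m)) (ZMod 2)) +
    (G.induce (S : Set (Fin m))).lapMatrix (ZMod 2)).det ≠ 0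

/-- every vertex of `S` has at most one neighbour in `S` -/
def Matching {m : ℕ} (G : SimpleGraph (Fin m)) (S : Finset (Fin m)) : Prop :=
  ∀ i ∈ S, ∀ j ∈ S, ∀ k ∈ S, G.Adj i j → G.Adj i k → j = k

/-- the sets `U ⊆ T` with `E_M(ℚ)` finite and `Ш(E_M/ℚ)[2] = 0` for all `M = ∏ (U ∆ V)`, `V ⊆ J` -/
def Base (T J : Finset ℕ) : Set (Finset ℕ) :=
  {U | U ⊆ T ∧ ∀ V, V ⊆ J → TrivialTwo (∏ q ∈ U ∆ V, q)}

/-- the property of the tuple `h`: for every graph `G` there is `d ∈ {1, r}` such that for infinitely many `n` the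
numbers `n + h i` are primes, `1` modulo `28 N`, with at most `B` primes at distance at most `Y` from `n` (for every
`Y`), and the conclusions hold for all `J ⊆ T` -/
def AllFields (T : Finset ℕ) (N r B : ℕ) {m : ℕ} (h : Fin m → ℕ) : Prop :=
  ∀ G : SimpleGraph (Fin m), ∃ d : ℕ, (d = 1 ∨ d = r) ∧ ∀ Y : ℕ,
    {n : ℕ | (∀ i, (n + h i).Prime ∧ n + h i ≡ 1 [MOD 28 * N]) ∧
      {p : ℕ | p.Prime ∧ |(p : ℤ) - n| ≤ Y}.ncard ≤ B ∧
      ∀ J : Finset ℕ, J ⊆ T →
        (∀ K : IntermediateField ℚ ℂ, K ≤ Roots J → ∃ _ : NumberField K,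
          AllBundles K {D | ∃ U ∈ Base T J, ∃ S : Finset (Fin m), OddForests G S ∧
            D = (∏ q ∈ U, q) * (d * ∏ i ∈ S, (n + h i))}) ∧
        (∀ S : Finset (Fin m), Matching G S →
          ∀ K : IntermediateField ℚ ℂ, K ≤ Roots (J ∪ S.image (fun i => n + h i)) → ∃ _ : NumberField K,
            AllBundles K {D | ∃ U ∈ Base T J, ∃ S' : Finset (Fin m), S' ⊆ S ∧
              D = (∏ q ∈ U, q) * (d * ∏ i ∈ S', (n + h i))})}.Infinite

section proof

open Pool.Agent.U974.TW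
open Pool.Agent.U41.QB (FF GG)

section bundles
open MvPolynomial

theorem disc_eq' {R : Type} [CommRing R] (a b : R) : disc a b = FF (C a) (C b) (X 0) (X 1) := by
  unfold disc FF GG
  simp only [C_mul, C_pow]
  ring

theorem exists_bundle {R : Type} [CommRing R] [Nontrivial R] (k : ℕ) (a b : R) : ∃ S, IsBundle k a b 1 S := by
  classical
  have hhom : (disc a b).IsHomogeneous 6 := by
    have e : disc a b = C (-48 * b ^ 3) * X 0 ^ 6 + C (45 * (a * b ^ 2)) * (X 0 ^ 4 * X 1 ^ 2) +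
        C (45 * (a ^ 2 * b)) * (X 0 ^ 2 * X 1 ^ 4) + C (-48 * a ^ 3) * X 1 ^ 6 := by
      unfold disc
      simp only [C_mul, C_neg]
      have h48 : (C (48 : R) : MvPolynomial (Fin 2) R) = 48 := map_ofNat C 48
      have h45 : (C (45 : R) : MvPolynomial (Fin 2) R) = 45 := map_ofNat C 45
      rw [h48, h45]
      ring
    rw [e]
    have hX : ∀ (i : Fin 2) (n : ℕ), ((X i : MvPolynomial (Fin 2) R) ^ n).IsHomogeneous n := by
      intro i n
      have := (isHomogeneous_X R i).pow n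
      rwa [one_mul] at this
    have hC : ∀ (z : R) (P : MvPolynomial (Fin 2) R), P.IsHomogeneous 6 →
        (C z * P).IsHomogeneous 6 := by
      intro z P hP
      have := (isHomogeneous_C (Fin 2) z).mul hP
      rwa [zero_add] at this
    refine (((hC _ _ (hX 0 6)).add (hC _ _ ?_)).add (hC _ _ ?_)).add (hC _ _ (hX 1 6))
    · exact (hX 0 4).mul (hX 1 2)
    · exact (hX 0 2).mul (hX 1 4)
  refine ⟨Matrix.diagonal fun i => if i = 0 then (-1) ^ (k + 1) * disc a b else 1,
    Matrix.isSymm_diagonal _, ⟨fun i => if i = 0 then 6 else 0, fun i j => ?_, fun i j => ?_⟩,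
    one_ne_zero, ?_⟩
  · simp only
    split_ifs <;> rfl
  · by_cases hij : i = j
    · subst hij
      rw [Matrix.diagonal_apply_eq]
      simp only
      split_ifs with h
      · have h1 : (((-1) ^ (k + 1) : MvPolynomial (Fin 2) R) * disc a b).IsHomogeneous (0 + 6) := by
          refine IsHomogeneous.mul ?_ hhom
          have : ((-1) ^ (k + 1) : MvPolynomial (Fin 2) R) = C ((-1) ^ (k + 1)) := by simp
          rw [this]
          exact isHomogeneous_C _ _
        exact h1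
      · exact isHomogeneous_one _ _
    · rw [Matrix.diagonal_apply_ne _ hij]
      exact isHomogeneous_zero _ _ _
  · rw [Matrix.det_diagonal, Finset.prod_ite_eq' Finset.univ (0 : Fin (2 * k + 2)), if_pos (Finset.mem_univ _)]
    simp

end bundles

variable {K : Type} [Field K] [NumberField K]

theorem fin_points {D : ℕ} (hD : D ≠ 0) (hf : Finite (Pool.Agent.U80.MQ.tc D K).toAffine.Point) :
    (points (K := K) (D : 𝓞 K)).Finite := by
  have hK : (D : K) ≠ 0 := Nat.cast_ne_zero.2 hD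
  have key : ∀ q ∈ points (K := K) (D : 𝓞 K), (Pool.Agent.U80.MQ.tc D K).toAffine.Nonsingular q.1 q.2 := by
    intro q hq
    refine Pool.Agent.Y700.nonsing ?_ ?_
    · simp only [Pool.Agent.U80.MQ.tc, Pool.Agent.U80.MQ.A, Pool.Agent.U80.MQ.B, WeierstrassCurve.Δ,
        WeierstrassCurve.b₂, WeierstrassCurve.b₄, WeierstrassCurve.b₆, WeierstrassCurve.b₈]
      push_cast
      have e : (-(0 ^ 2 + 4 * 0) ^ 2 * (0 ^ 2 * (-98 * (D : K) ^ 3) + 4 * 0 * (-98 * (D : K) ^ 3) -
          0 * 0 * (-35 * (D : K) ^ 2) + 0 * 0 ^ 2 - (-35 * (D : K) ^ 2) ^ 2) -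
          8 * (2 * (-35 * (D : K) ^ 2) + 0 * 0) ^ 3 - 27 * (0 ^ 2 + 4 * (-98 * (D : K) ^ 3)) ^ 2 +
          9 * (0 ^ 2 + 4 * 0) * (2 * (-35 * (D : K) ^ 2) + 0 * 0) * (0 ^ 2 + 4 * (-98 * (D : K) ^ 3))) =
          -1404928 * (D : K) ^ 6 := by ring
      intro h
      rw [e] at h
      exact mul_ne_zero (by norm_num) (pow_ne_zero 6 hK) h
    · rw [Affine.equation_iff]
      have hq' : q.2 ^ 2 = q.1 ^ 3 - 35 * ((D : 𝓞 K) : K) ^ 2 * q.1 - 98 * ((D : 𝓞 K) : K) ^ 3 := hq
      have hc : ((D : 𝓞 K) : K) = (D : K) := map_natCast _ D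
      rw [hc] at hq'
      simp only [Pool.Agent.U80.MQ.tc, Pool.Agent.U80.MQ.A, Pool.Agent.U80.MQ.B]
      push_cast
      linear_combination hq'
  rw [← Set.finite_coe_iff]
  refine Finite.of_injective (fun q : points (K := K) (D : 𝓞 K) =>
    (Affine.Point.some q.1.1 q.1.2 (key q.1 q.2) : (Pool.Agent.U80.MQ.tc D K).toAffine.Point)) ?_
  intro q q' hqq
  simp only [Affine.Point.some.injEq] at hqq
  exact Subtype.ext (Prod.ext hqq.1 hqq.2)

theorem points_sq {a t : 𝓞 K} (ht : t ≠ 0) (h : (points a).Finite) : (points (a * t ^ 2)).Finite := by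
  have ht' : (t : K) ≠ 0 := by
    intro h0
    exact ht (RingOfIntegers.ext h0)
  refine (h.image fun q : K × K => ((t : K) ^ 2 * q.1, (t : K) ^ 3 * q.2)).subset fun q hq => ?_
  have hc : ((a * t ^ 2 : 𝓞 K) : K) = (a : K) * (t : K) ^ 2 := by
    push_cast
    rfl
  have hq' : q.2 ^ 2 = q.1 ^ 3 - 35 * ((a : K) * (t : K) ^ 2) ^ 2 * q.1 - 98 * ((a : K) * (t : K) ^ 2) ^ 3 := by
    rw [← hc]
    exact hq
  refine ⟨(q.1 / (t : K) ^ 2, q.2 / (t : K) ^ 3), ?_, ?_⟩
  · show (q.2 / (t : K) ^ 3) ^ 2 = (q.1 / (t : K) ^ 2) ^ 3 - 35 * (a : K) ^ 2 * (q.1 / (t : K) ^ 2) -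
      98 * (a : K) ^ 3
    rw [div_pow, hq']
    field_simp
  · refine Prod.ext ?_ ?_
    · show (t : K) ^ 2 * (q.1 / (t : K) ^ 2) = q.1
      field_simp
    · show (t : K) ^ 3 * (q.2 / (t : K) ^ 3) = q.2
      field_simp

/-- the data of one twist -/
def Ok (K : Type) [Field K] [NumberField K] (D : ℕ) : Prop :=
  D ≠ 0 ∧ Finite (Pool.Agent.U80.MQ.tc D K).toAffine.Point ∧
    ∃ G : ℂ → ℂ, Differentiable ℂ G ∧ (∀ s : ℂ, 3 / 2 < s.re →
      HasProd (Pool.Agent.U80.MQ.factor (K := K) (Pool.Agent.U80.MQ.A D)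
        (Pool.Agent.U80.MQ.B D) s) (G s)) ∧ G 1 ≠ 0

theorem rankZero {k : ℕ} {D D' : ℕ} (hD : Ok K D) (hD' : Ok K D') {t t' a b e : 𝓞 K} (ht : t ≠ 0)
    (ht' : t' ≠ 0) (hta : a = (D : 𝓞 K) * t ^ 2) (htb : b = (D' : 𝓞 K) * t' ^ 2)
    {S : Matrix (Fin (2 * k + 2)) (Fin (2 * k + 2)) (MvPolynomial (Fin 2) (𝓞 K))}
    (hS : IsBundle k a b e S) : RankZero k a b e S := by
  obtain ⟨hsym, -, he, hdet⟩ := hS
  rw [disc_eq'] at hdet
  have hDK : (D : 𝓞 K) ≠ 0 := Nat.cast_ne_zero.2 hD.1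
  have hDK' : (D' : 𝓞 K) ≠ 0 := Nat.cast_ne_zero.2 hD'.1
  have ha : a ≠ 0 := by rw [hta]; exact mul_ne_zero hDK (pow_ne_zero 2 ht)
  have hb : b ≠ 0 := by rw [htb]; exact mul_ne_zero hDK' (pow_ne_zero 2 ht')
  have h42 : (42 : 𝓞 K) ≠ 0 := by norm_num
  have hN : 42 * a * b * e ≠ 0 := mul_ne_zero (mul_ne_zero (mul_ne_zero h42 ha) hb) he
  have hmem : ∀ (v : HeightOneSpectrum (𝓞 K)) (z w : 𝓞 K), z ∈ v.asIdeal → z * w = 42 * a * b * e →
      42 * a * b * e ∈ v.asIdeal := by
    intro v z w hz hzw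
    rw [← hzw]
    exact v.asIdeal.mul_mem_right w hz
  have m2 : ∀ v : HeightOneSpectrum (𝓞 K), (2 : 𝓞 K) ∈ v.asIdeal → 42 * a * b * e ∈ v.asIdeal :=
    fun v h => hmem v 2 (21 * a * b * e) h (by ring)
  have m3 : ∀ v : HeightOneSpectrum (𝓞 K), (3 : 𝓞 K) ∈ v.asIdeal → 42 * a * b * e ∈ v.asIdeal :=
    fun v h => hmem v 3 (14 * a * b * e) h (by ring)
  have m7 : ∀ v : HeightOneSpectrum (𝓞 K), (7 : 𝓞 K) ∈ v.asIdeal → 42 * a * b * e ∈ v.asIdeal :=
    fun v h => hmem v 7 (6 * a * b * e) h (by ring)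
  have ma : ∀ v : HeightOneSpectrum (𝓞 K), a ∈ v.asIdeal → 42 * a * b * e ∈ v.asIdeal :=
    fun v h => hmem v a (42 * b * e) h (by ring)
  have mb : ∀ v : HeightOneSpectrum (𝓞 K), b ∈ v.asIdeal → 42 * a * b * e ∈ v.asIdeal :=
    fun v h => hmem v b (42 * a * e) h (by ring)
  have me : ∀ v : HeightOneSpectrum (𝓞 K), e ∈ v.asIdeal → 42 * a * b * e ∈ v.asIdeal :=
    fun v h => hmem v e (42 * a * b) h (by ring)
  have na : Pool.Agent.U974.QB.NonVan a (42 * a * b * e) := by
    have := Pool.Agent.U974.QB.nonVan_of (D := D) (t := t) hN (fun v hv => ?_) hD.2.2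
    · rw [← hta] at this
      exact this
    · rcases hv with h | h | h | h
      · exact m2 v h
      · exact m7 v h
      · refine ma v ?_
        rw [hta]
        exact v.asIdeal.mul_mem_right _ h
      · refine ma v ?_
        rw [hta, sq, ← mul_assoc]
        exact v.asIdeal.mul_mem_left _ h
  have nb : Pool.Agent.U974.QB.NonVan b (42 * a * b * e) := by
    have := Pool.Agent.U974.QB.nonVan_of (D := D') (t := t') hN (fun v hv => ?_) hD'.2.2
    · rw [← htb] at this
      exact this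
    · rcases hv with h | h | h | h
      · exact m2 v h
      · exact m7 v h
      · refine mb v ?_
        rw [htb]
        exact v.asIdeal.mul_mem_right _ h
      · refine mb v ?_
        rw [htb, sq, ← mul_assoc]
        exact v.asIdeal.mul_mem_left _ h
  obtain ⟨L, L1, L2, L3⟩ := Pool.Agent.U974.QB.L_two k (a := a) (b := b) (N := 42 * a * b * e) m2 na nb
  refine ⟨?_, ?_, L, ⟨L1, fun v => Pool.Agent.U974.QB.eig k (Pool.Agent.U974.QB.tv a v)
    (Pool.Agent.U974.QB.tv b v) (Ideal.absNorm v.asIdeal), ?_, L2⟩, L3⟩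
  · rw [hta]
    exact points_sq ht (fin_points hD.1 hD.2.1)
  · rw [htb]
    exact points_sq ht' (fin_points hD'.1 hD'.2.1)
  · intro v hv
    have hp := Pool.Agent.U974.QB.place v (fun h => hv (m2 v h))
    refine ⟨?_, Pool.Agent.U974.QB.card_eig _ _ _ _, Pool.Agent.U974.QB.norm_eig k (hp.2.1 a) (hp.2.1 b)⟩
    intro F _ _ φ hφ r hr
    exact hp.2.2.2 (fun h => hv (m3 v h)) (fun h => hv (m7 v h)) k S a b e hsym hdet
      (fun h => hv (ma v h)) (fun h => hv (mb v h)) (fun h => hv (me v h)) F φ hφ r hr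

theorem allBundles {𝒟 : Set ℕ} (h : ∀ D ∈ 𝒟, Ok K D) : AllBundles K 𝒟 := by
  intro D hD D' hD' t t' ht ht' k a b ha hb
  exact ⟨exists_bundle k a b, fun e S hS => rankZero (h D hD) (h D' hD') ht ht' ha hb hS⟩

theorem numberField {J : Finset ℕ} (K : IntermediateField ℚ ℂ) (hK : K ≤ Roots J) : NumberField K := by
  obtain ⟨n, _, _, _, _, _, _, h⟩ := Pool.Agent.U80.MQ.exists_gens K hK
  exact { to_charZero := inferInstance
          to_finiteDimensional := Module.finite_of_finrank_pos (by rw [h]; positivity) }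

theorem ne_zero_of {m : ℕ} {G : SimpleGraph (Fin m)} {f : Fin m → ℕ} {c : ZMod 2} {T : Finset ℕ} {r : ℕ}
    (h : CfgF G f c T r) {U : Finset ℕ} (hU : U ⊆ T) (b : Bool) (S : Finset (Fin m)) :
    (∏ p ∈ U, p) * ((if b then r else 1) * ∏ i ∈ S, f i) ≠ 0 := by
  refine mul_ne_zero (Finset.prod_ne_zero_iff.2 fun p hp => (h.tprime p (hU hp)).1.ne_zero)
    (mul_ne_zero ?_ (Finset.prod_ne_zero_iff.2 fun i _ => (h.prime i).ne_zero))
  split_ifs
  · exact h.rprime.1.ne_zero
  · exact one_ne_zero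

end proof

/-- **Beilinson's conjecture for quadric bundles over the fields of prime tuples.** -/
theorem result (m N : ℕ) (hN : 0 < N) (h7 : N.Coprime 7) (T : Finset ℕ)
    (hT : ∀ q ∈ T, q.Prime ∧ q % 4 = 1) :
    TrivialTwo 1 ∧
    ∃ r B : ℕ, r.Prime ∧ r ≡ 1 [MOD 4 * N] ∧ ∀ δ : ℝ, 0 < δ → ∃ c : ℝ, 0 < c ∧
      ∃ x₀ : ℕ, ∀ x : ℕ, x₀ ≤ x → ∀ W : Finset ℕ, (∀ w ∈ W, w ≤ x) → δ * x ≤ W.card →
        c * (x : ℝ) ^ m ≤ ({h : Fin m → ℕ | StrictMono h ∧ (∀ i, h i ∈ W) ∧
          AllFields T N r B h}.ncard : ℝ) := by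
  refine ⟨?_, ?_⟩
  · have h1 := (Pool.Agent.U120.MF.tt_gd (U := (∅ : Finset ℕ))
      (fun p hp => absurd hp (Finset.notMem_empty _))).2 (by
      intro x _ p hp
      exact absurd hp (Finset.notMem_empty _))
    rw [Finset.prod_empty] at h1
    exact h1
  obtain ⟨r, hr1, hr2, -, B, hB⟩ := Pool.Agent.U974.TW.relP m N hN h7 T hT
  refine ⟨r, B, hr1, hr2, fun δ hδ => ?_⟩
  obtain ⟨c, hc, x₀, hx⟩ := hB δ hδ
  refine ⟨c, hc, x₀, fun x hxx W hW hWc => (hx x hxx W hW hWc).trans ?_⟩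
  have hfin : {h : Fin m → ℕ | StrictMono h ∧ (∀ i, h i ∈ W) ∧ AllFields T N r B h}.Finite := by
    refine (Fintype.piFinset (fun _ : Fin m => W)).finite_toSet.subset ?_
    rintro h ⟨-, h2, -⟩
    rw [Finset.mem_coe, Fintype.mem_piFinset]
    exact h2
  have hsub : {h : Fin m → ℕ | StrictMono h ∧ (∀ i, h i ∈ W) ∧ Pool.Agent.U974.TW.AllCfg N B T r h} ⊆
      {h : Fin m → ℕ | StrictMono h ∧ (∀ i, h i ∈ W) ∧ AllFields T N r B h} := by
    rintro h ⟨g1, g2, g3⟩
    refine ⟨g1, g2, fun G => ?_⟩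
    obtain ⟨c, hc⟩ := g3 G
    obtain ⟨β, hβ1, hβ2⟩ := Pool.Agent.U974.TW.exists_flip c
    refine ⟨if β then r else 1, ?_, fun Y => (hc Y).mono ?_⟩
    · cases β
      · exact Or.inl rfl
      · exact Or.inr rfl
    · rintro n ⟨k1, k2, k3⟩
      refine ⟨fun i => ⟨k1.prime i, k2 i⟩, k3, fun J hJ => ⟨fun K hK => ?_, fun S hS K hK => ?_⟩⟩
      · have hnf : NumberField K := numberField K hK
        refine ⟨hnf, allBundles ?_⟩
        rintro D ⟨U, ⟨hU, hUJ⟩, S, hS, rfl⟩
        refine ⟨ne_zero_of k1 hU β S, ?_⟩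
        have h4 := k1.field hU hJ hUJ β S (by
          rw [hβ1, Pool.Agent.U974.TW.ker_iff]
          exact hS) K hK _ rfl
        exact ⟨h4.1, h4.2.1⟩
      · have hnf : NumberField K := numberField K hK
        refine ⟨hnf, allBundles ?_⟩
        rintro D ⟨U, ⟨hU, hUJ⟩, S', hS', rfl⟩
        refine ⟨ne_zero_of k1 hU β S', ?_⟩
        have h4 := k1.field2 hU hJ hUJ β S (fun S'' hS'' => by
          rw [hβ1]
          exact Pool.Agent.U974.TW.Match.ker (Pool.Agent.U974.TW.Match.mono hS hS'')) S' hS' K hK _ rfl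
        exact ⟨h4.1, h4.2.1⟩
  exact_mod_cast Set.ncard_le_ncard hsub hfin

end Pool.Agent.Results.MP_29b22a_nt.BundlesOverTupleFields
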