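import Pool.Agent.U41.QB.Lf
import Pool.Agent.Results.MP_03e5d0_nt.FullClassX49

/-!
# Beilinson's conjecture in every odd degree `i = 2 k + 1` for quadric bundles over the projective line,
# for exactly the proportion `0.4194... ^ #T` of the twists

`E_a : y² = x³ - 35 a² x - 98 a³` is the quadratic twist by `a` of `X_0(49)`. Let

  `Δ_{a,b}(x, y) = -3 (16 b³ x⁶ - 15 a b² x⁴ y² - 15 a² b x² y⁴ + 16 a³ y⁶)`.

A quadric bundle of relative dimension `2 k` over the line with the discriminant `Δ_{a,b}` is given by a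
symmetric matrix `S` of size `2 k + 2` whose entries `S i j` are binary forms over `ℤ` of degree
`(d i + d j) / 2` (the `d i` of the same parity), with `det S = (-1)^(k+1) e² Δ_{a,b}`, `e ≠ 0`. It is
the variety `Y : ∑ S i j (x, y) z_i z_j = 0`, `(x : y) ∈ ℙ¹`, `(z) ∈ ℙ^(2k+1)`, smooth and projective over
`ℚ` (the zeros of `Δ_{a,b}` are simple), of dimension `n = 2 k + 1`; for `k = 0` it is the curve
`C : w² = Δ_{a,b}` of genus two. The only odd cohomology is `H^(2k+1)(Y) = H¹(C)(-k)`, the Jacobian of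
`C` is isogenous to `E_a × E_b`, and `CH^(k+1)(Y)⁰ ⊗ ℚ = Jac(C)(ℚ) ⊗ ℚ`. (These facts are not
formalized; the `L`-function below is the one given by the numbers of points of `Y` over all finite
fields of good characteristic, and the group is given by the rational points of `E_a` and `E_b`.) So for
`i = 2 k + 1`, `m = k + 1 = n + 1 - m` the parts (i), (ii), (iii) of the conjecture hold, with `0 = 0`, if
`E_a(ℚ)` and `E_b(ℚ)` are finite and the `L`-function is not zero at `k + 1`.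

`D` runs over the class of the squarefree numbers with all prime factors `≡ 1 mod 4`, and `T` is a finite
subset of the class. For exactly the proportion `c ^ #T` of the `D`, `c = ∏_{i ≥ 0} (1 - 2^{-(2i+1)})`,
`0.4194 < c`, all the `E_{M D}`, `M ∈ T`, have finitely many rational points and no `Ш[2]`; for each such
`D` the parts (i), (ii), (iii) hold for `i = 2 k + 1` for ALL `k ≥ 0` and ALL quadric bundles of relative
dimension `2 k` with discriminant `Δ_{a,b}`, where `a` and `b` are any integers that are products of a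
number `M D`, `M ∈ T`, and a nonzero rational square; such bundles exist for all `k`, `a`, `b`.

Proof. The number of points: over a finite field the fibres have corank at most one (a double zero of the
determinant would be a double zero of `Δ_{a,b}`), their numbers of points are given by the quadratic
character of the determinant, and the sum of the quadratic character of `Δ_{a,b}` over the line is the sum
of the character sums of `E_a` and `E_b`; the sums over the extensions are given by the exact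
`L`-polynomial of `y² = x (x² + u x + v)`. The nonvanishing and the finiteness for the `E_{M D}` and the
exact joint law are from the library (`MP_4a9ea6_nt/TwoPartTwistsX49`, `MP_03e5d0_nt/FullClassX49`,
`R413/SQ`).
-/

set_option autoImplicit false

open Filter Topology MvPolynomial

namespace Pool.Agent.Results.MP_29b22a_nt.QuadricBundles

open Pool.Agent.Results.MP_92892c_nt.FullClassTwoPartX49 (Family RankZeroShaTwo num)
open Pool.Agent.Results.MP_03e5d0_nt.FullClassX49 (tw)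

/-- the binary sextic form `Δ_{a,b} = -3 (16 b³ x⁶ - 15 a b² x⁴ y² - 15 a² b x² y⁴ + 16 a³ y⁶)` -/
noncomputable def disc (a b : ℤ) : MvPolynomial (Fin 2) ℤ :=
  -3 * (16 * C (b ^ 3) * X 0 ^ 6 - 15 * C (a * b ^ 2) * (X 0 ^ 4 * X 1 ^ 2)
    - 15 * C (a ^ 2 * b) * (X 0 ^ 2 * X 1 ^ 4) + 16 * C (a ^ 3) * X 1 ^ 6)

/-- `S` is the matrix of a quadric bundle of relative dimension `2 k` over the line with discriminant
`e² Δ_{a,b}`: it is symmetric, its entries are forms of the degrees `(d i + d j) / 2` for numbers `d i` of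
the same parity, and its determinant is `(-1)^(k+1) e² Δ_{a,b}`, `e ≠ 0`. -/
def IsBundle (k : ℕ) (a b e : ℤ) (S : Matrix (Fin (2 * k + 2)) (Fin (2 * k + 2)) (MvPolynomial (Fin 2) ℤ)) :
    Prop :=
  S.IsSymm ∧ (∃ d : Fin (2 * k + 2) → ℕ, (∀ i j, d i % 2 = d j % 2) ∧
    ∀ i j, (S i j).IsHomogeneous ((d i + d j) / 2)) ∧
  e ≠ 0 ∧ S.det = (-1) ^ (k + 1) * C (e ^ 2) * disc a b

/-- The pairs of a nonzero `(x, y)` and a nonzero `z` with coordinates in `F` and
`∑ S i j (x, y) z_i z_j = 0`; every point of `Y` over `F` is given by `(#F - 1)²` of them. -/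
def solutions {n : ℕ} (S : Matrix (Fin n) (Fin n) (MvPolynomial (Fin 2) ℤ)) (F : Type) [Field F] :
    Set ((Fin 2 → F) × (Fin n → F)) :=
  {w | w.1 ≠ 0 ∧ w.2 ≠ 0 ∧ ∑ i, ∑ j, aeval w.1 (S i j) * w.2 i * w.2 j = 0}

/-- `A` is the multiset of the eigenvalues of the Frobenius of the field with `q` elements on
`H^(2k+1)(Y)`: for every field `F` with `q ^ r` elements the number of the points of `Y` over `F` is
`(#F + 1) (1 + #F + ... + #F^(2k)) - ∑ α^r` (the first summand is the contribution of the even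
cohomology, which is spanned by algebraic classes). -/
def IsFrobenius (k : ℕ) (S : Matrix (Fin (2 * k + 2)) (Fin (2 * k + 2)) (MvPolynomial (Fin 2) ℤ)) (q : ℕ)
    (A : Multiset ℂ) : Prop :=
  ∀ (F : Type) [Field F] [Finite F] (r : ℕ), Nat.card F = q ^ r →
    ((solutions S F).ncard : ℂ) = ((Nat.card F : ℂ) - 1) ^ 2 * (((Nat.card F : ℂ) + 1) *
      ∑ j ∈ Finset.range (2 * k + 1), (Nat.card F : ℂ) ^ j - (A.map (fun α => α ^ r)).sum)

/-- `L` is entire and equal for `Re s > k + 3 / 2` to the Euler product of `L(H^(2k+1)(Y), s)` over the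
primes not dividing `B`: at these primes there are `4 = dim H^(2k+1)(Y)` eigenvalues, of absolute value
`p ^ (k + 1 / 2)`. -/
def IsLFunction (k : ℕ) (S : Matrix (Fin (2 * k + 2)) (Fin (2 * k + 2)) (MvPolynomial (Fin 2) ℤ)) (B : ℤ)
    (L : ℂ → ℂ) : Prop :=
  Differentiable ℂ L ∧ ∃ A : ℕ → Multiset ℂ,
    (∀ p : ℕ, p.Prime → ¬ (p : ℤ) ∣ B → IsFrobenius k S p (A p) ∧ (A p).card = 4 ∧
      ∀ α ∈ A p, ‖α‖ ^ 2 = (p : ℝ) ^ (2 * k + 1)) ∧
    ∀ s : ℂ, (k : ℝ) + 3 / 2 < s.re →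
      HasProd (fun p : {p : ℕ // p.Prime ∧ ¬ (p : ℤ) ∣ B} =>
        ((A p.1).map (fun α => (1 - α * ((p.1 : ℕ) : ℂ) ^ (-s))⁻¹)).prod) (L s)

/-- the rational points of `E_a : y² = x³ - 35 a² x - 98 a³` (without the point at infinity) -/
def points (a : ℤ) : Set (ℚ × ℚ) :=
  {q | q.2 ^ 2 = q.1 ^ 3 - 35 * (a : ℚ) ^ 2 * q.1 - 98 * (a : ℚ) ^ 3}

/-- `E_a(ℚ)` and `E_b(ℚ)` are finite, and `L(H^(2k+1)(Y), s)`, without the factors at the primes dividing
`42 a b e`, is entire and not zero at the centre `s = k + 1`. -/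
def RankZero (k : ℕ) (a b e : ℤ) (S : Matrix (Fin (2 * k + 2)) (Fin (2 * k + 2)) (MvPolynomial (Fin 2) ℤ)) :
    Prop :=
  (points a).Finite ∧ (points b).Finite ∧
    ∃ L : ℂ → ℂ, IsLFunction k S (42 * a * b * e) L ∧ L (k + 1) ≠ 0

/-- For all `M ∈ T` the twist by `M D` (by its squarefree part `tw M D`) of `X_0(49)` has finitely many
rational points and no element of order two in its Tate-Shafarevich group. -/
def Good (T : Finset ℕ) (D : ℕ) : Prop := ∀ M ∈ T, RankZeroShaTwo (tw M D)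

/-- `a` is the product of one of the `M D`, `M ∈ T`, and a nonzero rational square. -/
def IsTwist (T : Finset ℕ) (D : ℕ) (a : ℤ) : Prop :=
  ∃ M ∈ T, ∃ t : ℤ, t ≠ 0 ∧ a = (tw M D : ℤ) * t ^ 2

/-- the constant `0.4194...` -/
noncomputable def c : ℝ := ∏' i : ℕ, (1 - (1 / 2 : ℝ) ^ (2 * i + 1))

section proof

open Pool.Agent.U41.QB
open Pool.Agent.R413.SQ
open Pool.Agent.Results.MP_4a9ea6_nt.TwoPartTwistsX49 (Adm mat core inert split inq spl mat_eq union_eq
  adm_mod)
open Pool.Agent.Results.MP_03e5d0_nt.FullClassX49 (sel_det num_num)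

theorem disc_eq' (a b : ℤ) : disc a b = FF (C a) (C b) (X 0) (X 1) := by
  unfold disc FF GG
  simp only [C_mul, C_pow]
  ring

theorem nonvan {D : ℕ} (h : Adm D) (hd : (mat D).det ≠ 0) :
    NonVan (D : ℤ) (2 * (4 * cA D ^ 3 + 27 * cB D ^ 2)) := by
  classical
  obtain ⟨j, hj⟩ : ∃ j : ℕ, D = 1 + 4 * j := ⟨D / 4, by have := adm_mod h; omega⟩
  have hprod : ∏ q ∈ inert D ∪ split D, q = 1 + 4 * j := by
    rw [union_eq, Nat.prod_primeFactors_of_squarefree h.1, hj]
  obtain ⟨f, h1, h2, h3⟩ := L49.main (inq h) (spl h) (by rw [mat_eq]; exact hd) hprod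
  have ea : cA (D : ℤ) = L49.A j := by
    unfold cA L49.A
    rw [hj]
    push_cast
    rfl
  have eb : cB (D : ℤ) = L49.B j := by
    unfold cB L49.B
    rw [hj]
    push_cast
    rfl
  rw [← ea, ← eb] at h2
  exact ⟨f, h1, h2, h3⟩

theorem fin_points {D : ℕ} (h : Adm D) (hd : (mat D).det ≠ 0) : (points (D : ℤ)).Finite := by
  have h1 := Cor.fin_set h.1.ne_zero ((Cor.crit h).2 hd).1
  refine h1.subset fun q hq => ?_
  have hq' : q.2 ^ 2 = q.1 ^ 3 - 35 * ((D : ℤ) : ℚ) ^ 2 * q.1 - 98 * ((D : ℤ) : ℚ) ^ 3 := hq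
  show q.2 ^ 2 = q.1 ^ 3 + (Cor.a D : ℚ) * q.1 + (Cor.b D : ℚ)
  rw [hq']
  unfold Cor.a Cor.b
  push_cast
  ring

theorem points_sq {a t : ℤ} (ht : t ≠ 0) (h : (points a).Finite) : (points (a * t ^ 2)).Finite := by
  have ht' : (t : ℚ) ≠ 0 := by exact_mod_cast ht
  refine (h.image fun q : ℚ × ℚ => ((t : ℚ) ^ 2 * q.1, (t : ℚ) ^ 3 * q.2)).subset fun q hq => ?_
  have hq' : q.2 ^ 2 = q.1 ^ 3 - 35 * ((a * t ^ 2 : ℤ) : ℚ) ^ 2 * q.1 - 98 * ((a * t ^ 2 : ℤ) : ℚ) ^ 3 := hq
  refine ⟨(q.1 / (t : ℚ) ^ 2, q.2 / (t : ℚ) ^ 3), ?_, ?_⟩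
  · show (q.2 / (t : ℚ) ^ 3) ^ 2 = (q.1 / (t : ℚ) ^ 2) ^ 3 - 35 * (a : ℚ) ^ 2 * (q.1 / (t : ℚ) ^ 2) -
      98 * (a : ℚ) ^ 3
    push_cast at hq'
    rw [div_pow, hq']
    field_simp
  · refine Prod.ext ?_ ?_
    · show (t : ℚ) ^ 2 * (q.1 / (t : ℚ) ^ 2) = q.1
      field_simp
    · show (t : ℚ) ^ 3 * (q.2 / (t : ℚ) ^ 3) = q.2
      field_simp

theorem twist_facts {T : Finset ℕ} (hT : ∀ M ∈ T, Family M) {D : ℕ} (hD : Family D) (hG : Good T D)
    {a : ℤ} (ha : IsTwist T D a) : a ≠ 0 ∧ (points a).Finite ∧ ∀ N : ℤ, N ≠ 0 → 14 * a ∣ N →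
      NonVan a N := by
  obtain ⟨M, hM, t, ht, rfl⟩ := ha
  have h1 : Adm (tw M D) := Joint.adm_tw (hT M hM) hD
  have h2 : (mat (tw M D)).det ≠ 0 := (sel_det h1).1 (hG M hM)
  have h3 : ((tw M D : ℕ) : ℤ) ≠ 0 := by exact_mod_cast h1.1.ne_zero
  exact ⟨mul_ne_zero h3 (pow_ne_zero 2 ht), points_sq ht (fin_points h1 h2),
    fun N hN hd => nonVan_of hN hd (nonvan h1 h2)⟩

theorem exists_bundle (k : ℕ) (a b : ℤ) : ∃ S, IsBundle k a b 1 S := by
  classical
  have hhom : (disc a b).IsHomogeneous 6 := by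
    have e : disc a b = C (-48 * b ^ 3) * X 0 ^ 6 + C (45 * (a * b ^ 2)) * (X 0 ^ 4 * X 1 ^ 2) +
        C (45 * (a ^ 2 * b)) * (X 0 ^ 2 * X 1 ^ 4) + C (-48 * a ^ 3) * X 1 ^ 6 := by
      unfold disc
      simp only [C_mul, C_neg]
      have h48 : (C (48 : ℤ) : MvPolynomial (Fin 2) ℤ) = 48 := rfl
      have h45 : (C (45 : ℤ) : MvPolynomial (Fin 2) ℤ) = 45 := rfl
      rw [h48, h45]
      ring
    rw [e]
    have hX : ∀ (i : Fin 2) (n : ℕ), ((X i : MvPolynomial (Fin 2) ℤ) ^ n).IsHomogeneous n := by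
      intro i n
      have := (isHomogeneous_X ℤ i).pow n
      rwa [one_mul] at this
    have hC : ∀ (z : ℤ) (P : MvPolynomial (Fin 2) ℤ), P.IsHomogeneous 6 →
        (C z * P).IsHomogeneous 6 := by
      intro z P hP
      have := (isHomogeneous_C (Fin 2) z).mul hP
      rwa [zero_add] at this
    refine (((hC _ _ (hX 0 6)).add (hC _ _ ?_)).add (hC _ _ ?_)).add (hC _ _ (hX 1 6))
    · exact (hX 0 4).mul (hX 1 2)
    · exact (hX 0 2).mul (hX 1 4)
  refine ⟨Matrix.diagonal fun i => if i = 0 then (-1) ^ (k + 1) * disc a b else 1,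
    Matrix.isSymm_diagonal _, ⟨fun i => if i = 0 then 6 else 0, fun i j => ?_, fun i j => ?_⟩,
    one_ne_zero, ?_⟩
  · simp only
    split_ifs <;> rfl
  · by_cases hij : i = j
    · subst hij
      rw [Matrix.diagonal_apply_eq]
      simp only
      split_ifs with h
      · have h1 : (((-1) ^ (k + 1) : MvPolynomial (Fin 2) ℤ) * disc a b).IsHomogeneous (0 + 6) := by
          refine IsHomogeneous.mul ?_ hhom
          have : ((-1) ^ (k + 1) : MvPolynomial (Fin 2) ℤ) = C ((-1) ^ (k + 1)) := by simp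
          rw [this]
          exact isHomogeneous_C _ _
        exact h1
      · exact isHomogeneous_one _ _
    · rw [Matrix.diagonal_apply_ne _ hij]
      exact isHomogeneous_zero _ _ _
  · rw [Matrix.det_diagonal, Finset.prod_ite_eq' Finset.univ (0 : Fin (2 * k + 2)), if_pos (Finset.mem_univ _)]
    simp

theorem rankZero {k : ℕ} {a b e : ℤ} (ha0 : a ≠ 0) (hb0 : b ≠ 0) (ha : (points a).Finite)
    (hb : (points b).Finite) (hna : ∀ N : ℤ, N ≠ 0 → 14 * a ∣ N → NonVan a N)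
    (hnb : ∀ N : ℤ, N ≠ 0 → 14 * b ∣ N → NonVan b N)
    {S : Matrix (Fin (2 * k + 2)) (Fin (2 * k + 2)) (MvPolynomial (Fin 2) ℤ)}
    (hS : IsBundle k a b e S) : RankZero k a b e S := by
  obtain ⟨hsym, -, he, hdet⟩ := hS
  rw [disc_eq'] at hdet
  have hN : 42 * a * b * e ≠ 0 := mul_ne_zero (mul_ne_zero (mul_ne_zero (by norm_num) ha0) hb0) he
  obtain ⟨L, L1, L2, L3⟩ := L_two k (a := a) (b := b) (N := 42 * a * b * e)
    ⟨21 * a * b * e, by ring⟩ (hna _ hN ⟨3 * b * e, by ring⟩) (hnb _ hN ⟨3 * a * e, by ring⟩)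
  refine ⟨ha, hb, L, ⟨L1, fun p => eig k (tr a p) (tr b p) p, ?_, L2⟩, L3⟩
  intro p hp hpB
  have : Fact p.Prime := ⟨hp⟩
  have hnd : ∀ z : ℤ, z ∣ 42 * a * b * e → ¬ (p : ℤ) ∣ z := fun z hz h => hpB (h.trans hz)
  have hp2 : p ≠ 2 := by
    rintro rfl
    exact hpB ⟨21 * a * b * e, by push_cast; ring⟩
  have hp3 : p ≠ 3 := by
    rintro rfl
    exact hpB ⟨14 * a * b * e, by push_cast; ring⟩
  have hp7 : p ≠ 7 := by
    rintro rfl
    exact hpB ⟨6 * a * b * e, by push_cast; ring⟩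
  refine ⟨?_, ?_, norm_eig k (tr_bound hp hp2 a) (tr_bound hp hp2 b)⟩
  · intro F _ _ r hr
    have h := frob hp2 hp3 hp7 k hsym hdet (hnd a ⟨42 * b * e, by ring⟩)
      (hnd b ⟨42 * a * e, by ring⟩) (hnd e ⟨42 * a * b, by ring⟩) hr
    rw [← tr_eq hp2, ← tr_eq hp2] at h
    exact h
  · unfold eig
    simp

end proof

/-- **Main theorem.** Let `T` be a finite subset of the class. There are at least `κ X / √(log X)`
members `D ≤ X` of the class, `κ > 0`; the proportion of the good `D` tends to `c ^ #T`, `0.4194 < c`; and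
for every good `D` of the class, all `k` and all `a`, `b` in `T D` up to squares, bundles with the
discriminant `Δ_{a,b}` exist and all of them satisfy `RankZero`. -/
theorem result :
    (0.4194 < c ∧ c < 0.4195) ∧
    ∀ T : Finset ℕ, (∀ M ∈ T, Family M) →
      (∃ (κ : ℝ) (X₀ : ℕ), 0 < κ ∧ ∀ X : ℕ, X₀ ≤ X →
        κ * X / Real.sqrt (Real.log X) ≤ (num (fun _ => True) X : ℝ)) ∧
      Tendsto (fun X : ℕ => (num (Good T) X : ℝ) / (num (fun _ => True) X : ℝ)) atTop
        (𝓝 (c ^ T.card)) ∧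
      ∀ D : ℕ, Family D → Good T D → ∀ (k : ℕ) (a b : ℤ), IsTwist T D a → IsTwist T D b →
        (∃ S, IsBundle k a b 1 S) ∧ ∀ (e : ℤ) S, IsBundle k a b e S → RankZero k a b e S := by
  have hcc : Pool.Agent.Y703.CQ.c2 = c := rfl
  have hc1 : 0.4194 < c := Pool.Agent.Y948.CQ.t_C2.2.2.2.1
  have hc2 : c < 0.4195 := Pool.Agent.Y948.CQ.t_C2.2.2.2.2
  refine ⟨⟨hc1, hc2⟩, fun T hT => ⟨?_, ?_, fun D hD hG k a b ha hb => ⟨exists_bundle k a b,
    fun e S hS => ?_⟩⟩⟩
  · obtain ⟨κ, X₀, h1, h2⟩ := Pool.Agent.R413.SQ.Joint.low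
    refine ⟨κ, X₀, h1, fun X hX => ?_⟩
    rw [Pool.Agent.Results.MP_03e5d0_nt.FullClassX49.num_num (R := fun _ => True)
      (fun _ _ => Iff.rfl) X]
    exact h2 X hX
  · have h := Pool.Agent.R413.SQ.Joint.law (T := T) (V := T) hT (Finset.Subset.refl T)
    rw [hcc, Finset.sdiff_self, Finset.card_empty, pow_zero, mul_one] at h
    have h1 := fun X => Pool.Agent.Results.MP_03e5d0_nt.FullClassX49.num_num
      (Q := Good T) (R := fun D => ∀ M ∈ T,
        ((Pool.Agent.Results.MP_4a9ea6_nt.TwoPartTwistsX49.mat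
          (Pool.Agent.R413.SQ.Joint.tw M D)).det ≠ 0 ↔ M ∈ T)) (fun D hD => by
        unfold Good
        refine forall₂_congr fun M hM => ?_
        have h5 := Pool.Agent.Results.MP_03e5d0_nt.FullClassX49.sel_det
          (Pool.Agent.R413.SQ.Joint.adm_tw (hT M hM) hD)
        exact h5.trans ⟨fun h => ⟨fun _ => hM, fun _ => h⟩, fun h => h.2 hM⟩) X
    have h2 := fun X => Pool.Agent.Results.MP_03e5d0_nt.FullClassX49.num_num
      (Q := fun _ => True) (R := fun _ => True) (fun _ _ => Iff.rfl) X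
    simp only [h1, h2]
    exact h
  · obtain ⟨a0, a1, a2⟩ := twist_facts hT hD hG ha
    obtain ⟨b0, b1, b2⟩ := twist_facts hT hD hG hb
    exact rankZero a0 b0 a1 b1 a2 b2 hS

end Pool.Agent.Results.MP_29b22a_nt.QuadricBundles
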