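import Pool.Agent.U81.AR.Fin

/-!
# Beilinson's conjecture in degree one for a positive share of the abelian varieties
# `∏ Res_{L_j/ℚ} E_{i_j}`, with `L_j` over arbitrary abelian fields

`E_i : y² = x³ + a_i x + b_i` (`i = 1, …, m`) are elliptic curves over `ℚ` with newforms `f_i` of level `N_i`, and
`F_i` is an abelian number field, of any degree, contained in `ℚ(ζ_{n_i})` with `n_i` prime to `N_i`.  We suppose that
`E_i(F_i)[2] = 0`, that the `2`-Selmer group of `E_i` over `F_i` is trivial, and that `L(E_i/F_i, 1) ≠ 0`.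

A prime `q` is admissible if for all `i` it does not divide `2 Δ_i n_i` and `x³ + a_i x + b_i` has no root modulo the
places of `F_i` above `q`.  Let `𝒞 = 𝒞(±, P)` be the class of the squarefree integers `D ≡ 1 mod 4` (`D > 0` in the case
`+`) with admissible prime divisors such that the primes in a finite set `P` and the primes dividing some `2 Δ_i` split in
`ℚ(√D)`.  For `D_1, …, D_r ∈ 𝒞` let `𝒳(D)` be the set of all the abelian varieties

  `X = ∏_j Res_{L_j/ℚ} E_{i_j}`,   `F_{i_j} ⊆ L_j ⊆ F_{i_j}(√D_1, …, √D_r)`,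

over `ℚ` (finite products, repetitions are allowed).  In particular it contains the restrictions of scalars to `ℚ` of the
base changes of `A = ∏_i Res_{F_i/ℚ} E_i` to the fields `M ⊆ ℚ(√D_1, …, √D_r)`.  For `X` we have
`V^1(X) = Pic^0(X)(ℚ) ⊗ ℚ = ⊕_j E_{i_j}(L_j) ⊗ ℚ` and `L(H^1(X), s) = ∏_j L(E_{i_j}/L_j, s)`.

Theorem.  (1) For all `D_1, …, D_r ∈ 𝒞` and all `X ∈ 𝒳(D)` the groups `E_{i_j}(L_j)` are finite of odd order and
`Ш(E_{i_j}/L_j)[2^∞] = 0` (so `V^1(X) = 0` and `Ш(X/ℚ)[2^∞] = 0`).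

(2) For every `r` there are finitely many corrections: there are at most `V` tuples `(k_1, …, k_r)`, `V` depends only on
the `E_i`, `F_i` and `r`, such that for all `D_1, …, D_r ∈ 𝒞` the tuple `D'` of the squarefree parts of the `D_j k_j` is
good for one of them.  A tuple `D` is good if for ALL `X ∈ 𝒳(D)` the function `L(H^1(X), s)` is entire and
`ord_{s=1} L(H^1(X), s) = dim V^1(X) = 0`: parts (i) and (iii) of Beilinson's conjecture for `X` and `i = m = 1`.  (Part
(ii) also concerns the zero-cycles on `X`; if `X` is a curve, that is, one of the `E_i` over `ℚ`, it is trivial here.)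

(3) If there is an automorphism of `ℚ̄` which fixes the fields `F_i` and moves all the points of order two of the curves
`E_i` (for `m = 1` this is always so), then the good tuples are a positive share of all the tuples, and the number of the
good tuples with `|D_j| ≤ X` and `D_1, …, D_r` independent modulo the squares of all the fields `F_i` is at least
`(X / (log X)^(1 - ε))^r` for large `X`, where `ε > 0` depends only on the `E_i` and `F_i`.

The simple factors of `Res_{F_i/ℚ} E_i` are the abelian varieties `E_i ⊗ χ` of dimension `φ(ord χ)` for the characters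
`χ` of `F_i`, so for `r = 1` the theorem is about the quadratic twists of products of such abelian varieties.

The hypothesis on the Selmer group has no condition at the real places of `F_i`; if `E_i(ℝ)` is connected or `F_i` is
totally complex, then there is none in the definition of the Selmer group.

The proof.  The starting library (`Pool.Agent.K4H55.AB`, not used by a hand-in before) contains the nonvanishing for single
quadratic twists over abelian fields: the sums of the modular symbols with a fixed character modulo `n_i` and a quadratic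
character satisfy a Möbius inversion modulo a prime above `2`, and by Krull's theorem finitely many corrections suffice.
`Pool.Agent.K4H55.CX.fin_up` treats the points over Galois extensions of `2`-power degree and
`Pool.Agent.Y18.LP.tup_abs` is the abstract lemma for tuples.  New here (`Pool.Agent.U81.AR`, with
`Pool.Agent.U81.MP`, `Pool.Agent.U81.MQ` of my hand-in `MP_ae0bd0_nt.MultiquadraticProportion`): the corrections for
tuples with fixed characters (`corrH_tup`, `main_tup`), Kummer theory and the decomposition laws of the fields `L_j` over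
`F_{i_j}`, the comparison of the Euler factors (`ef_fac`, `fct_fac`), the complete Euler products of `E_i` over `L_j` and
of `X` over `ℚ` (`prod32`, `hasProd_primes`), the descent over `F_i` for the layers (`layer`), and the counting.
-/

set_option autoImplicit false

open NumberField IsDedekindDomain Matrix WeierstrassCurve Filter Topology
open UpperHalfPlane MatrixGroups CongruenceSubgroup
open scoped TensorProduct

namespace Pool.Agent.Results.MP_29b22a_nt.RestrictionsOfScalars

/-- `N_p`: the number of pairs `(x, y) ∈ (ℤ/p)²` with `y² = x³ + a x + b`. -/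
noncomputable def pointCount (a b : ℤ) (p : ℕ) : ℕ :=
  Nat.card {q : ZMod p × ZMod p // q.2 ^ 2 = q.1 ^ 3 + (a : ZMod p) * q.1 + (b : ZMod p)}

/-- `p` is a prime not dividing `2 Δ`, `Δ = -4 a³ - 27 b²`. -/
def GoodPrime (a b : ℤ) (p : ℕ) : Prop :=
  p.Prime ∧ ¬ ((p : ℤ) ∣ 2 * (-4 * a ^ 3 - 27 * b ^ 2))

/-- The `n`-th Fourier coefficient of `f`. -/
noncomputable def coef {N : ℕ} (f : CuspForm (Gamma0 N : Subgroup (GL (Fin 2) ℝ)) 2) (n : ℕ) : ℂ :=
  (qExpansion 1 f).coeff n

/-- `f ∈ S_2(Γ₀(N))` is the newform of the elliptic curve `E : y² = x³ + a x + b`, with its standard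
properties: the Fourier coefficients `c(n)` of `f` are real with `c(1) = 1`, they satisfy the Hecke
relations `c(mn) = c(m) c(n)` for coprime `m`, `n` and `c(p^(j+2)) = c(p) c(p^(j+1)) - p c(p^j)`
(without the last term if `p ∣ N`) and the bounds `|c(p)| ≤ 2√p` for `p ∤ N`, `|c(p)| ≤ 1` for
`p ∣ N`; `f` is an eigenfunction of the Fricke involution: `f(-1/(Nτ)) = -w N τ² f(τ)` with `w = ±1`;
for all primes `p ∤ 2Δ` one has `p ∤ N` and `c(p) = a_p(E)`.  (Every elliptic curve over `ℚ` has such a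
form by the modularity theorem.) -/
structure IsFormOf (a b : ℤ) (N : ℕ) (f : CuspForm (Gamma0 N : Subgroup (GL (Fin 2) ℝ)) 2) :
    Prop where
  one : coef f 1 = 1
  real : ∀ n, (coef f n).im = 0
  mul : ∀ m n : ℕ, Nat.Coprime m n → coef f (m * n) = coef f m * coef f n
  pow : ∀ p j : ℕ, p.Prime → coef f (p ^ (j + 2)) = coef f p * coef f (p ^ (j + 1)) -
      (if p ∣ N then 0 else (p : ℂ) * coef f (p ^ j))
  good : ∀ p : ℕ, p.Prime → ¬ p ∣ N → ‖coef f p‖ ≤ 2 * Real.sqrt p
  bad : ∀ p : ℕ, p.Prime → p ∣ N → ‖coef f p‖ ≤ 1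
  fricke : ∃ w : ℝ, (w = 1 ∨ w = -1) ∧ ∀ τ τ' : ℍ, (τ' : ℂ) * ((N : ℂ) * (τ : ℂ)) = -1 →
    f τ' = -(w : ℂ) * (N : ℂ) * (τ : ℂ) ^ 2 * f τ
  points : ∀ p : ℕ, GoodPrime a b p → ¬ p ∣ N ∧ coef f p = (p : ℂ) - (pointCount a b p : ℂ)

/-- `pw t u n = α ^ n + β ^ n`, where `α`, `β` are the roots of `X² - t X + u`. -/
noncomputable def pw (t u : ℂ) : ℕ → ℂ
  | 0 => 2
  | 1 => t
  | n + 2 => t * pw t u (n + 1) - u * pw t u n

section field
variable {L : Type} [Field L] [NumberField L]

/-- The number `a_v` of `E : y² = x³ + a x + b` at a finite place `v` of `L`: `Nv` minus the number of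
affine solutions `(x, y)` of the equation over the residue field `𝓞 L / v`. -/
noncomputable def av (a b : ℤ) (v : HeightOneSpectrum (𝓞 L)) : ℤ :=
  ((Ideal.absNorm v.asIdeal : ℕ) : ℤ) -
    ((Nat.card {x : (𝓞 L ⧸ v.asIdeal) × (𝓞 L ⧸ v.asIdeal) //
      x.2 ^ 2 = x.1 ^ 3 + (a : 𝓞 L ⧸ v.asIdeal) * x.1 + (b : 𝓞 L ⧸ v.asIdeal)} : ℕ) : ℤ)

open Classical in
/-- The Euler factor of `L(E/L, s)` at the finite place `v` of `L`.  If `v ∤ 2 Δ`, it is
`(1 - a_v (Nv)^(-s) + (Nv)^(1-2s))⁻¹`.  If `v ∣ 2 Δ` and `Nv = p ^ d` with `p` prime, it is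
`(1 - (α^d + β^d) (Nv)^(-s) + (Nv)^(1-2s))⁻¹` for `p ∤ N`, where `α`, `β` are the roots of
`X² - c(p) X + p`, and `(1 - c(p)^d (Nv)^(-s))⁻¹` for `p ∣ N`.  (The primes `p ∣ N` are unramified in `F_i`, as `n_i`
is prime to `N_i`, and the primes `p ∣ 2 Δ_i` are unramified in `ℚ(√D_j)`, so that this is the Hasse-Weil factor.) -/
noncomputable def factor (a b : ℤ) {N : ℕ} (f : CuspForm (Gamma0 N : Subgroup (GL (Fin 2) ℝ)) 2)
    (s : ℂ) (v : HeightOneSpectrum (𝓞 L)) : ℂ :=
  if ((2 * (4 * a ^ 3 + 27 * b ^ 2) : ℤ) : 𝓞 L) ∈ v.asIdeal then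
    (1 - pw (coef f (Ideal.absNorm v.asIdeal).minFac)
          (if (Ideal.absNorm v.asIdeal).minFac ∣ N then 0 else ((Ideal.absNorm v.asIdeal).minFac : ℂ))
          ((Ideal.absNorm v.asIdeal).factorization (Ideal.absNorm v.asIdeal).minFac)
          * ((Ideal.absNorm v.asIdeal : ℕ) : ℂ) ^ (-s)
      + (if (Ideal.absNorm v.asIdeal).minFac ∣ N then (0 : ℂ) else
          ((Ideal.absNorm v.asIdeal : ℕ) : ℂ) ^ (1 - 2 * s)))⁻¹
  else
    (1 - ((av a b v : ℤ) : ℂ) * ((Ideal.absNorm v.asIdeal : ℕ) : ℂ) ^ (-s)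
      + ((Ideal.absNorm v.asIdeal : ℕ) : ℂ) ^ (1 - 2 * s))⁻¹

variable (L) in
/-- The product of the Euler factors of `E` at the places of `L` above the prime `p`. -/
noncomputable def factorsAt (a b : ℤ) {N : ℕ} (f : CuspForm (Gamma0 N : Subgroup (GL (Fin 2) ℝ)) 2)
    (s : ℂ) (p : ℕ) : ℂ :=
  ∏ᶠ v : {v : HeightOneSpectrum (𝓞 L) // (p : 𝓞 L) ∈ v.asIdeal}, factor a b f s v.1

variable (L) in
/-- `L(E/L, 1) ≠ 0`: there is an entire function which for `Re s > 3/2` is the Euler product of `E` over all the finite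
places of `L`, and which does not vanish at `s = 1`. -/
def Nonvanishing (a b : ℤ) {N : ℕ} (f : CuspForm (Gamma0 N : Subgroup (GL (Fin 2) ℝ)) 2) : Prop :=
  ∃ G : ℂ → ℂ, Differentiable ℂ G ∧
    (∀ s : ℂ, 3 / 2 < s.re → HasProd (fun v : HeightOneSpectrum (𝓞 L) => factor a b f s v) (G s)) ∧
    G 1 ≠ 0

end field

section selmer
variable {K : Type} [Field K] [NumberField K] {L : Type} [Field L] [NumberField L] [Algebra K L]

/-- `L = K(θ)` is the cubic field of `E` over `K`: `θ³ + a θ + b = 0`, and every element of `L` is `u + v θ + w θ²` for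
unique `u, v, w ∈ K`.  So `x³ + a x + b` is irreducible over `K`, that is, `E(K)[2] = 0`. -/
structure IsCubicField (a b : 𝓞 K) (θ : L) : Prop where
  root : θ ^ 3 + algebraMap K L a * θ + algebraMap K L b = 0
  basis : ∀ β : L, ∃! t : K × K × K,
    β = algebraMap K L t.1 + algebraMap K L t.2.1 * θ + algebraMap K L t.2.2 * θ ^ 2

/-- The class of `α` in `(K_v ⊗ L)^×` modulo squares is in the group generated by the images of the points
`(x, y)`, `y ≠ 0`, of `E(K_v)` under the Kummer map `(x, y) ↦ x - θ`.  (This group is the image of `E(K_v)/2E(K_v)`, as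
the map is a homomorphism and all classes contain points with `y ≠ 0`.) -/
def LocalCondition (a b : 𝓞 K) (θ : L) (v : HeightOneSpectrum (𝓞 K)) (α : L) : Prop :=
  ∃ s : List (v.adicCompletion K),
    (∀ x ∈ s, ∃ y : v.adicCompletion K, y ≠ 0 ∧
      y ^ 2 = x ^ 3 + algebraMap K (v.adicCompletion K) a * x +
        algebraMap K (v.adicCompletion K) b) ∧
    IsSquare (((1 : v.adicCompletion K) ⊗ₜ[K] α) *
      (s.map fun x => x ⊗ₜ[K] (1 : L) - 1 ⊗ₜ[K] θ).prod)

/-- The `2`-Selmer group of `E/K` is trivial: it is the group of the classes of `α ∈ L^×` modulo squares such that the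
norm of `α` is a square, `w(α)` is even for all places `w ∤ 2(4a³ + 27b²)` of `L`, and `α` satisfies the local conditions
at the places `v ∣ 2(4a³ + 27b²)` of `K`.  There is no condition at the real places; such a condition would only be needed
at the real places with `4a³ + 27b² < 0`. -/
def TrivialSelmer (a b : 𝓞 K) (θ : L) : Prop :=
  ∀ α : L, α ≠ 0 → IsSquare (Algebra.norm K α) →
    (∀ w : HeightOneSpectrum (𝓞 L), algebraMap (𝓞 K) (𝓞 L) (2 * (4 * a ^ 3 + 27 * b ^ 2)) ∉
      w.asIdeal → IsSquare (w.valuation L α)) →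
    (∀ v : HeightOneSpectrum (𝓞 K), 2 * (4 * a ^ 3 + 27 * b ^ 2) ∈ v.asIdeal →
      LocalCondition a b θ v α) → IsSquare α

end selmer

/-- The curve `E : y² = x³ + a x + b` over the field `L`. -/
def curve (L : Type) [Field L] (a b : ℤ) : WeierstrassCurve L := ⟨0, 0, 0, a, b⟩

open Classical in
/-- The rank of the group `∏_j E_j(L_j)`, where `E_j : y² = x³ + a_j x + b_j`. -/
noncomputable def rankOfProduct {k : ℕ} (L : Fin k → Type) [∀ j, Field (L j)] (a b : Fin k → ℤ) : ℕ :=
  Module.finrank ℤ ((j : Fin k) → (curve (L j) (a j) (b j)).toAffine.Point)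

open Classical in
/-- `E(L)` is finite of odd order; the Tate-Shafarevich group `Ш(E/L)` (`Sha`: the continuous cocycles of the absolute
Galois group with values in the points over an algebraic closure which are coboundaries at all the places, modulo the
coboundaries) has no element of order two, hence its `2`-primary part is zero. -/
structure Arithmetic (L : Type) [Field L] [NumberField L] (a b : ℤ) : Prop where
  finite : Finite (curve L a b).toAffine.Point
  odd : Odd (Nat.card (curve L a b).toAffine.Point)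
  sha : ∀ (k : ℕ) (s : Pool.Agent.TH841.NF.D.Sha (curve L a b)), (2 ^ k : ℕ) • s = 0 → s = 0

section tuples

variable {m : ℕ} (a b : Fin m → ℤ) {N : Fin m → ℕ} (n : Fin m → ℕ)
  (f : (i : Fin m) → CuspForm (Gamma0 (N i) : Subgroup (GL (Fin 2) ℝ)) 2)
  (F : Fin m → Type) [∀ i, Field (F i)] [∀ i, NumberField (F i)]

/-- `q` is admissible: for all `i`, `q ∤ 2 Δ_i n_i` and `x³ + a_i x + b_i` has no root modulo the places of `F_i`
above `q`. -/
structure IsAdmissible (q : ℕ) : Prop where
  good : q.Prime ∧ q ≠ 2 ∧ ∀ i, GoodPrime (a i) (b i) q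
  unramified : ∀ i, ¬ q ∣ n i
  noRoot : ∀ i, ∀ v : HeightOneSpectrum (𝓞 (F i)), (q : 𝓞 (F i)) ∈ v.asIdeal →
    ∀ x : 𝓞 (F i), x ^ 3 + (a i : 𝓞 (F i)) * x + (b i : 𝓞 (F i)) ∉ v.asIdeal

/-- The class `𝒞(±, P)`: `D` is a squarefree integer, `D ≡ 1 mod 4`, all prime divisors of `D` are admissible, `D > 0` if
`pos` holds, and `(p/|D|) = 1` for all the primes `p ∈ P` and all the primes `p` dividing some `2 Δ_i` (that is, `p`
splits in `ℚ(√D)`). -/
structure InClass (pos : Prop) (P : Finset ℕ) (D : ℤ) : Prop where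
  squarefree : Squarefree D
  one : D % 4 = 1
  admissible : ∀ q : ℕ, q.Prime → (q : ℤ) ∣ D → IsAdmissible a b n F q
  sign : pos → 0 < D
  local' : ∀ p ∈ P, jacobiSym p D.natAbs = 1
  bad : ∀ p : ℕ, p.Prime → (∃ i, (p : ℤ) ∣ 2 * (4 * a i ^ 3 + 27 * b i ^ 2)) →
    jacobiSym p D.natAbs = 1

/-- The field `K(√D_1, …, √D_r)`, in an algebraic closure of `K`. -/
noncomputable def rootField (K : Type) [Field K] {r : ℕ} (D : Fin r → ℤ) :
    IntermediateField K (AlgebraicClosure K) :=
  IntermediateField.adjoin K {x | ∃ j, x ^ 2 = ((D j : ℤ) : AlgebraicClosure K)}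

/-- An abelian variety `X = ∏_j Res_{L_j/ℚ} E_{i_j}` (`j = 1, …, k`) of the family `𝒳(D)`:
`F_{i_j} ⊆ L_j ⊆ F_{i_j}(√D_1, …, √D_r)`. -/
structure Variety {r : ℕ} (D : Fin r → ℤ) (k : ℕ) where
  index : Fin k → Fin m
  field : (j : Fin k) → IntermediateField (F (index j)) (AlgebraicClosure (F (index j)))
  finite : ∀ j, NumberField (field j)
  le : ∀ j, field j ≤ rootField (F (index j)) D

attribute [instance] Variety.finite

variable {F} {r : ℕ} {D : Fin r → ℤ} {k : ℕ}

/-- The Euler factor of `L(H^1(X), s)` at the prime `p`: as `H^1(X) = ⊕_j Ind_{L_j}^ℚ H^1(E_{i_j})`, it is the product of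
the Euler factors of `E_{i_j}` at the places of `L_j` above `p`. -/
noncomputable def localFactor (X : Variety F D k) (s : ℂ) (p : ℕ) : ℂ :=
  ∏ j, factorsAt (X.field j) (a (X.index j)) (b (X.index j)) (f (X.index j)) s p

/-- `G` is the continuation of `L(H^1(X), s)`: it is an entire function, and for `Re s > 3/2` it is the product of the
Euler factors at all the primes. -/
def IsLFunction (X : Variety F D k) (G : ℂ → ℂ) : Prop :=
  Differentiable ℂ G ∧ ∀ s : ℂ, 3 / 2 < s.re →
    HasProd (fun p : Nat.Primes => localFactor a b f X s p) (G s)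

/-- The rank of `X(ℚ) = ∏_j E_{i_j}(L_j)`; `X` is isogenous to its dual, so this is the dimension of `V^1(X)`. -/
noncomputable def rank (X : Variety F D k) : ℕ :=
  rankOfProduct (fun j => X.field j) (fun j => a (X.index j)) (fun j => b (X.index j))

/-- Parts (i) and (iii) of Beilinson's conjecture for `X` and `i = m = 1`, with both sides of (iii) zero: `L(H^1(X), s)` has a
continuation to an entire function, whose order of vanishing at `s = 1` is the rank of `X(ℚ)` and zero. -/
def RankPart (X : Variety F D k) : Prop :=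
  ∃ G : ℂ → ℂ, IsLFunction a b f X G ∧
    analyticOrderAt G 1 = ((rank a b X : ℕ) : ℕ∞) ∧
    analyticOrderAt G 1 = 0

variable (F) in
/-- The tuple `(D_1, …, D_r)` is good: `RankPart` holds for all the abelian varieties `X ∈ 𝒳(D)`. -/
def Good (D : Fin r → ℤ) : Prop := ∀ (k : ℕ) (X : Variety F D k), RankPart a b f X

variable (F) in
/-- `D_1, …, D_r` are independent modulo the squares of `F_i`, so that `F_i(√D_1, …, √D_r)` has the degree `2^r` over
`F_i`, for all `i`. -/
def Independent (D : Fin r → ℤ) : Prop :=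
  ∀ i, ∀ S : Finset (Fin r), S.Nonempty → ¬ IsSquare (∏ j ∈ S, ((D j : ℤ) : F i))

variable (F) in
/-- There is an automorphism of the algebraic closure of `ℚ` which fixes (all the embeddings of) the fields `F_i` and
moves all the roots of the polynomials `x³ + a_i x + b_i`. -/
def HasMover : Prop :=
  ∃ g : AlgebraicClosure ℚ ≃ₐ[ℚ] AlgebraicClosure ℚ,
    (∀ i, ∀ (φ : F i →ₐ[ℚ] AlgebraicClosure ℚ) (x : F i), g (φ x) = φ x) ∧
    ∀ i, ∀ t : AlgebraicClosure ℚ, t ^ 3 + (a i : AlgebraicClosure ℚ) * t + b i = 0 → g t ≠ t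

variable (F) in
/-- The number of the `r`-tuples of elements of the class with `|D_j| ≤ X`. -/
noncomputable def allTuples (pos : Prop) (P : Finset ℕ) (r X : ℕ) : ℕ :=
  Nat.card {D : Fin r → ℤ // ∀ j, InClass a b n F pos P (D j) ∧ |D j| ≤ X}

variable (F) in
/-- The number of the independent good `r`-tuples of elements of the class with `|D_j| ≤ X`. -/
noncomputable def goodTuples (pos : Prop) (P : Finset ℕ) (r X : ℕ) : ℕ :=
  Nat.card {D : Fin r → ℤ // (∀ j, InClass a b n F pos P (D j) ∧ |D j| ≤ X) ∧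
    Good a b f F D ∧ Independent F D}

variable (F) in
/-- Part (1): for all `D_1, …, D_r` of the class and all `F_i ⊆ L ⊆ F_i(√D_1, …, √D_r)` the extension `L/F_i` is Galois of
`2`-power degree, `E_i(L)` is finite of odd order and `Ш(E_i/L)[2^∞] = 0`. -/
def ArithmeticOfLayers : Prop :=
  ∀ (pos : Prop) (P : Finset ℕ) (r : ℕ) (D : Fin r → ℤ), (∀ j, InClass a b n F pos P (D j)) →
    ∀ i, ∀ (L : IntermediateField (F i) (AlgebraicClosure (F i))) [NumberField L],
      L ≤ rootField (F i) D → IsGalois (F i) L ∧ (∃ k : ℕ, Module.finrank (F i) L = 2 ^ k) ∧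
        Arithmetic L (a i) (b i)

variable (F) in
/-- Part (2): for every `r` there is `V` such that for all signs and all finite sets `P` there is a set `T` of at most `V`
tuples of the class such that for all `D_1, …, D_r` of the class there are `(k_1, …, k_r) ∈ T` and a good tuple
`(D'_1, …, D'_r)` of the class with `D'_j g_j² = D_j k_j`. -/
def FinitelyManyCorrections : Prop :=
  ∀ r : ℕ, ∃ V : ℕ, ∀ (pos : Prop) (P : Finset ℕ),
    ∃ T : Finset (Fin r → ℤ), T.card ≤ V ∧ (∀ k ∈ T, ∀ j, InClass a b n F pos P (k j)) ∧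
      ∀ D : Fin r → ℤ, (∀ j, InClass a b n F pos P (D j)) → ∃ k ∈ T, ∃ g D' : Fin r → ℤ,
        (∀ j, g j ≠ 0 ∧ D' j * g j ^ 2 = D j * k j ∧ InClass a b n F pos P (D' j)) ∧
        Good a b f F D'

variable (F) in
/-- Part (3): there is `ε` with `0 < ε < 1` such that for all `r ≥ 1`, all signs and all finite sets `P` of primes there is
`C` such that for all large `X` the number of all tuples up to `X` is at most `C` times the number of the independent good
tuples up to `C X`, and for all large `X` there are at least `(X / (log X)^(1 - ε))^r` independent good tuples up to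
`X`. -/
def PositiveShare : Prop :=
  ∃ ε : ℝ, 0 < ε ∧ ε < 1 ∧ ∀ r : ℕ, 1 ≤ r →
    ∀ (pos : Prop) (P : Finset ℕ), (∀ p ∈ P, p.Prime) →
    (∃ C : ℕ, ∀ᶠ X : ℕ in atTop,
      allTuples a b n F pos P r X ≤ C * goodTuples a b n f F pos P r (C * X)) ∧
    ∀ᶠ X : ℕ in atTop,
      ((X : ℝ) / Real.log X ^ (1 - ε)) ^ r ≤ goodTuples a b n f F pos P r X

end tuples

theorem pw_eq (t u : ℂ) : ∀ n : ℕ, pw t u n = W165.CE.pw t u n
  | 0 => rfl
  | 1 => rfl
  | n + 2 => by rw [pw, W165.CE.pw, pw_eq t u (n + 1), pw_eq t u n]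

theorem factor_eq {L : Type} [Field L] [NumberField L] (a b : ℤ) {N : ℕ}
    (f : CuspForm (Gamma0 N : Subgroup (GL (Fin 2) ℝ)) 2) (s : ℂ) (v : HeightOneSpectrum (𝓞 L)) :
    factor a b f s v = W165.CE.fac a b N (Pool.Agent.Y18.BSD.co f) s v := by
  unfold factor W165.CE.fac
  rw [pw_eq]
  rfl

open Classical in
lemma rank_zero {A : Type} [AddCommGroup A] (h1 : Finite A) : Module.finrank ℤ A = 0 := by
  apply Module.IsTorsion.finrank_eq_zero
  intro P
  refine ⟨⟨(Nat.card A : ℤ), ?_⟩, ?_⟩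
  · rw [mem_nonZeroDivisors_iff_ne_zero]
    exact_mod_cast Nat.card_pos.ne'
  · show (Nat.card A : ℤ) • P = 0
    rw [natCast_zsmul]
    exact card_nsmul_eq_zero'

open Classical in
lemma rankOfProduct_zero {k : ℕ} (L : Fin k → Type) [∀ j, Field (L j)] (a b : Fin k → ℤ)
    (h : ∀ j, Finite (curve (L j) (a j) (b j)).toAffine.Point) : rankOfProduct L a b = 0 := by
  unfold rankOfProduct
  exact rank_zero Pi.finite

lemma hasProd_factorsAt {L : Type} [Field L] [NumberField L] {a b : ℤ} {N : ℕ}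
    {f : CuspForm (Gamma0 N : Subgroup (GL (Fin 2) ℝ)) 2} {s z : ℂ}
    (h : HasProd (fun v : HeightOneSpectrum (𝓞 L) => factor a b f s v) z) :
    HasProd (fun p : Nat.Primes => factorsAt L a b f s p) z :=
  U81.AR.hasProd_primes h

/-- **Theorem.** Let `E_i : y² = x³ + a_i x + b_i` (`i = 1, …, m`) be elliptic curves over `ℚ` with newforms `f_i` of
level `N_i`, and `F_i` number fields which can be embedded in `ℚ(ζ_{n_i})`, `n_i` prime to `N_i`.  Suppose that for all `i`
`E_i(F_i)[2] = 0`, the `2`-Selmer group of `E_i` over `F_i` is trivial, and `L(E_i/F_i, 1) ≠ 0`.  Then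
(1) `ArithmeticOfLayers` (the groups `E_i(L)` are finite of odd order and `Ш(E_i/L)[2^∞] = 0` for all tuples of the class
and all `L`), (2) `FinitelyManyCorrections` (finitely many corrections suffice for all tuples), and (3) if `m ≤ 1` or
`HasMover` holds, `PositiveShare` (the share and the number of the good tuples). -/
theorem result (m : ℕ) (a b : Fin m → ℤ) (hΔ : ∀ i, 4 * a i ^ 3 + 27 * b i ^ 2 ≠ 0)
    (N n : Fin m → ℕ) (hN : ∀ i, N i ≠ 0) (hn : ∀ i, n i ≠ 0) (hnN : ∀ i, (n i).Coprime (N i))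
    (f : (i : Fin m) → CuspForm (Gamma0 (N i) : Subgroup (GL (Fin 2) ℝ)) 2)
    (hf : ∀ i, IsFormOf (a i) (b i) (N i) (f i))
    (F : Fin m → Type) [∀ i, Field (F i)] [∀ i, NumberField (F i)]
    (hF : ∀ i, Nonempty (F i →ₐ[ℚ] CyclotomicField (n i) ℚ))
    (h1 : ∀ i, Nonvanishing (F i) (a i) (b i) (f i))
    (A : Fin m → Type) [∀ i, Field (A i)] [∀ i, NumberField (A i)] [∀ i, Algebra (F i) (A i)]
    (θ : (i : Fin m) → A i)
    (hθ : ∀ i, IsCubicField ((a i : ℤ) : 𝓞 (F i)) ((b i : ℤ) : 𝓞 (F i)) (θ i))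
    (hS : ∀ i, TrivialSelmer ((a i : ℤ) : 𝓞 (F i)) ((b i : ℤ) : 𝓞 (F i)) (θ i)) :
    ArithmeticOfLayers a b n F ∧ FinitelyManyCorrections a b n f F ∧
      (m ≤ 1 ∨ HasMover a b F → PositiveShare a b n f F) := by
  classical
  have hf' : ∀ i, Pool.Agent.Y18.BSD.IsFormOf (a i) (b i) (N i) (f i) := fun i =>
    ⟨(hf i).one, (hf i).real, (hf i).mul, (hf i).pow, (hf i).good, (hf i).bad, (hf i).fricke,
      (hf i).points⟩
  have hcub : ∀ i, K4H55.BD.Cub (F i) (θ i) := by
    intro i
    refine ⟨fun p q r h0 => ?_, fun β => ?_⟩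
    · obtain ⟨t, ht, hu⟩ := (hθ i).basis 0
      have h1 := hu (p, q, r) h0.symm
      have h2 := hu (0, 0, 0) (by simp)
      have h3 := h1.trans h2.symm
      simp only [Prod.mk.injEq] at h3
      exact h3
    · obtain ⟨t, ht, -⟩ := (hθ i).basis β
      exact ⟨t.1, t.2.1, t.2.2, ht⟩
  have hroot : ∀ i, ∀ x : F i, x ^ 3 + (a i : F i) * x + b i ≠ 0 := by
    intro i x hx
    have h2 := K4H55.BD.no_root (hcub i) (hθ i).root x
    apply h2
    have e1 : (((a i : ℤ) : 𝓞 (F i)) : F i) = (a i : F i) := by simp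
    have e2 : (((b i : ℤ) : 𝓞 (F i)) : F i) = (b i : F i) := by simp
    rw [e1, e2]
    exact hx
  -- the class
  let P1 : Finset ℕ := (∏ i, (2 * (4 * a i ^ 3 + 27 * b i ^ 2)).natAbs).primeFactors
  have hP1 : ∀ p : ℕ, p ∈ P1 ↔ p.Prime ∧ ∃ i, (p : ℤ) ∣ 2 * (4 * a i ^ 3 + 27 * b i ^ 2) := by
    intro p
    rw [Nat.mem_primeFactors]
    constructor
    · rintro ⟨h2, h3, -⟩
      obtain ⟨i, -, hi⟩ := (h2.prime.dvd_finsetProd_iff _).1 h3
      exact ⟨h2, i, Int.natCast_dvd.2 hi⟩
    · rintro ⟨h2, i, hi⟩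
      refine ⟨h2, (Int.natCast_dvd.1 hi).trans (Finset.dvd_prod_of_mem
        (fun i => (2 * (4 * a i ^ 3 + 27 * b i ^ 2)).natAbs) (Finset.mem_univ i)), ?_⟩
      exact Finset.prod_ne_zero_iff.2 fun i _ => Int.natAbs_ne_zero.2
        (mul_ne_zero two_ne_zero (hΔ i))
  have hadm : ∀ q, q ∈ U81.AR.AN a b n F ↔ IsAdmissible a b n F q := by
    intro q
    exact ⟨fun h2 => ⟨⟨h2.1, h2.2.1, fun i => (h2.2.2 i).1⟩, fun i => (h2.2.2 i).2.1,
      fun i => (h2.2.2 i).2.2⟩, fun h2 => ⟨h2.good.1, h2.good.2.1, fun i => ⟨h2.good.2.2 i,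
      h2.unramified i, h2.noRoot i⟩⟩⟩
  have hcl : ∀ (pos : Prop) (P : Finset ℕ) (D : ℤ), InClass a b n F pos P D ↔
      K4H55.AB.DC (U81.AR.AN a b n F) pos (P ∪ P1) D := by
    intro pos P D
    constructor
    · intro h1
      refine ⟨h1.squarefree, h1.one, fun q hq hd => (hadm q).2 (h1.admissible q hq hd), h1.sign,
        fun p hp => ?_⟩
      rcases Finset.mem_union.1 hp with h2 | h2
      · exact h1.local' p h2
      · obtain ⟨h3, h4⟩ := (hP1 p).1 h2
        exact h1.bad p h3 h4
    · intro h1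
      exact ⟨h1.sqf, h1.one, fun q hq hd => (hadm q).1 (h1.adm q hq hd), h1.pos,
        fun p hp => h1.loc p (Finset.mem_union_left _ hp),
        fun p hp hv => h1.loc p (Finset.mem_union_right _ ((hP1 p).2 ⟨hp, hv⟩))⟩
  have hnv : ∀ i, U81.AR.NVT (F i) (a i) (b i) (f i) ∅ := by
    intro i
    obtain ⟨G, g1, g2, g3⟩ := h1 i
    refine U81.AR.nvt_empty ⟨G, g1, fun s hs => ?_, g3⟩
    refine (congrArg (fun g => HasProd g (G s)) (funext fun v => ?_)).mp (g2 s hs)
    exact factor_eq (a i) (b i) (f i) s v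
  -- the layers
  have hlay : ∀ (pos : Prop) (P : Finset ℕ) (r : ℕ) (D : Fin r → ℤ),
      (∀ j, InClass a b n F pos P (D j)) →
      ∀ i, ∀ (L : IntermediateField (F i) (AlgebraicClosure (F i))) [NumberField L],
        L ≤ rootField (F i) D → (IsGalois (F i) L ∧ (∃ k : ℕ, Module.finrank (F i) L = 2 ^ k) ∧
          Arithmetic L (a i) (b i)) ∧ (U81.AR.GoodT a b N F f D →
          Nonvanishing L (a i) (b i) (f i)) := by
    intro pos P r D hD i L _ hL
    obtain ⟨l1, l2, l3, l4⟩ := U81.AR.layer (U81.AR.an_adm a b n F i) (hn i) (hF i)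
      (P := P ∪ P1) (pos := pos)
      (fun p hp hd => Finset.mem_union_right _ ((hP1 p).2 ⟨hp, i, hd⟩)) (hΔ i) (hf' i) (hcub i)
      (hθ i).root (hS i) (fun j => (hcl pos P (D j)).1 (hD j)) L hL
    have e : K4H55.BD.crv (algebraMap (F i) L (((a i : ℤ) : 𝓞 (F i)) : F i))
        (algebraMap (F i) L (((b i : ℤ) : 𝓞 (F i)) : F i)) = curve L (a i) (b i) := by
      simp [K4H55.BD.crv, curve]
    rw [e] at l3
    refine ⟨⟨l1, l2, ⟨l3.1.1, l3.1.2, l3.2.1⟩⟩, fun hg => ?_⟩
    obtain ⟨G, g1, g2, g3⟩ := l4 fun S => hg S i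
    refine ⟨G, g1, fun s hs => ?_, g3⟩
    refine (congrArg (fun g => HasProd g (G s)) (funext fun v => ?_)).mp (g2 s hs)
    exact (factor_eq (a i) (b i) (f i) s v).symm
  -- good tuples
  have hgood : ∀ (pos : Prop) (P : Finset ℕ) (r : ℕ) (D : Fin r → ℤ),
      (∀ j, InClass a b n F pos P (D j)) → U81.AR.GoodT a b N F f D → Good a b f F D := by
    intro pos P r D hD hg k X
    have hX := fun j => hlay pos P r D hD (X.index j) (X.field j) (X.le j)
    choose G g1 g2 g3 using fun j => (hX j).2 hg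
    have hrk : rank a b X = 0 :=
      rankOfProduct_zero (fun j => X.field j) (fun j => a (X.index j)) (fun j => b (X.index j))
        fun j => (hX j).1.2.2.finite
    have hord : analyticOrderAt (fun s => ∏ j, G j s) 1 = 0 :=
      analyticOrderAt_eq_zero.2 (Or.inr (Finset.prod_ne_zero_iff.2 fun j _ => g3 j))
    refine ⟨fun s => ∏ j, G j s, ⟨Differentiable.fun_finsetProd fun j _ => g1 j, fun s hs => ?_⟩,
      by rw [hord, hrk]; rfl, hord⟩
    exact hasProd_prod fun j _ => hasProd_factorsAt (g2 j s hs)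
  refine ⟨fun pos P r D hD i L _ hL => (hlay pos P r D hD i L hL).1, fun r => ?_, fun hmv => ?_⟩
  · obtain ⟨V, hV⟩ := U81.AR.share a b N n F f hN hn hΔ hf' hnN hF hnv r
    refine ⟨V, fun pos P => ?_⟩
    obtain ⟨KD, k1, k2, k3, -⟩ := hV pos (P ∪ P1)
    refine ⟨KD, k1, fun k hk j => (hcl pos P _).2 (k2 k hk j), fun D hD => ?_⟩
    obtain ⟨k, hk, g, D', h1, h2⟩ := k3 D fun j => (hcl pos P _).1 (hD j)
    have h3 : ∀ j, InClass a b n F pos P (D' j) := fun j => (hcl pos P _).2 (h1 j).2.2
    exact ⟨k, hk, g, D', fun j => ⟨(h1 j).1, (h1 j).2.1, h3 j⟩, hgood pos P r D' h3 h2⟩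
  · have hm : U81.AR.Mov a b F := by
      rcases hmv with h2 | h2
      · have : Subsingleton (Fin m) := Fin.subsingleton_iff_le_one.2 h2
        exact U81.AR.mov_one a b n F hn hF hΔ hroot
      · exact h2
    obtain ⟨ε, hε, hε1, hsh⟩ := U81.AR.share_ind a b N n F f hN hn hΔ hf' hnN hF hnv hm
    refine ⟨ε, hε, hε1, fun r hr pos P hP => ?_⟩
    obtain ⟨⟨C, hC⟩, hlow⟩ := hsh r hr pos (P ∪ P1) (fun p hp => by
      rcases Finset.mem_union.1 hp with h2 | h2
      · exact hP p h2
      · exact ((hP1 p).1 h2).1)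
    have hall : ∀ X : ℕ, allTuples a b n F pos P r X = Nat.card {D : Fin r → ℤ // ∀ j,
        K4H55.AB.DC (U81.AR.AN a b n F) pos (P ∪ P1) (D j) ∧ |D j| ≤ X} := by
      intro X
      unfold allTuples
      exact Nat.card_congr (Equiv.subtypeEquivRight fun D => forall_congr' fun j =>
        and_congr_left fun _ => hcl pos P (D j))
    have hgt : ∀ (X : ℕ), Nat.card {D : Fin r → ℤ // (∀ j,
        K4H55.AB.DC (U81.AR.AN a b n F) pos (P ∪ P1) (D j) ∧ |D j| ≤ X) ∧
        U81.AR.GoodT a b N F f D ∧ U81.AR.IndK F D} ≤ goodTuples a b n f F pos P r X := by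
      intro X
      unfold goodTuples
      have hfi : Finite {D : Fin r → ℤ // (∀ j, InClass a b n F pos P (D j) ∧ |D j| ≤ X) ∧
          Good a b f F D ∧ Independent F D} := by
        refine Set.Finite.subset (Set.Finite.pi' fun _ : Fin r =>
          Set.finite_Icc (-(X : ℤ)) (X : ℤ)) ?_
        rintro D ⟨h2, -⟩ j
        exact abs_le.1 (h2 j).2
      refine Nat.card_le_card_of_injective (fun D => (⟨D.1, fun j =>
        ⟨(hcl pos P _).2 (D.2.1 j).1, (D.2.1 j).2⟩,
        hgood pos P r D.1 (fun j => (hcl pos P _).2 (D.2.1 j).1) D.2.2.1, D.2.2.2⟩ :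
        {D : Fin r → ℤ // (∀ j, InClass a b n F pos P (D j) ∧ |D j| ≤ X) ∧
          Good a b f F D ∧ Independent F D})) ?_
      intro D D' hDD
      exact Subtype.ext (congrArg (fun x => x.1) hDD)
    refine ⟨⟨C, ?_⟩, ?_⟩
    · filter_upwards [hC] with X hX
      rw [hall]
      refine hX.trans (Nat.mul_le_mul_left _ ?_)
      have e : ((C * X : ℕ) : ℤ) = (C : ℤ) * X := by push_cast; rfl
      have h1 := hgt (C * X)
      rw [e] at h1
      exact h1
    · filter_upwards [hlow] with X hX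
      exact hX.trans (by exact_mod_cast hgt X)

end Pool.Agent.Results.MP_29b22a_nt.RestrictionsOfScalars
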