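import Mathlib
import Pool.Agent.U621.TWX.Main

/-!
# Beilinson's conjecture at the centre for the restrictions of scalars of the twists of a curve of
conductor `20` from all multiquadratic fields ramified at primes `3, 7` modulo `20`

`E_D : y² = x³ - 11 D x² - D² x` is the quadratic twist by `D` of the elliptic curve `E_1` of conductor
`20` (`j = 2¹⁴ 31³ / 5³`, no complex multiplication). `D = 1 mod 4` is squarefree, of either sign, and
all its prime factors are `3` or `7` modulo `20`; `D = 1` is allowed. `F` is a multiquadratic number field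
(`Gal(F/ℚ)` of exponent at most two), real or not, of any degree `2 ^ k`, which is ramified only at primes
that are `3` or `7` modulo `20` and do not divide `D`: a subfield of the `n`-th cyclotomic field, where `n`
has only such prime factors. For example `F = ℚ(√-p₁, …, √-p_k)` or any subfield of it.

Then the Euler product of `E_D` over `F` continues to an entire function `Λ` with `Λ(1) ≠ 0`, the rank of
`E_D(F)` is zero, `E_D(F)` is finite, and `Λ(1)` is a rational multiple of the product of the real periods
of the twists `E_{De}`, where `e` runs over the squarefree integers with `√e ∈ F`.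

In the terms of the conjecture: let `X` be the restriction of scalars of `E_D` from `F` to `ℚ`, an
abelian variety of dimension `[F : ℚ]`, `i = 1` and `m = 1`. Then `L(H¹(X), s)` is the Euler product over
the places of `F`, `CH¹(X)⁰ ⊗ ℚ` is isomorphic to `E_D(F) ⊗ ℚ`, and `X` is isogenous to the product of the
`E_{De}`, so that the determinant of the period matrix is the product of their real periods up to a
rational factor. (These identifications are classical and not formalised.)

Proof. The equation of `E_D` is minimal at all the places of `F`. The Euler factors of `E_D` over the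
places of `F` above `p` are multiplied: the points over the finite fields are counted in the
characteristics `2`, `5`, those that divide `D`, and all others, and the product is the one of the Euler
factors of the `E_{De}` at `p` (also for ramified `p`). The `L`-functions of the `E_{De}` are
entire with values at `1` that are odd multiples of powers of two by modular symbols for `Γ₀(20)`
(`Y695`). For the points: an eigenvector of the Galois group of infinite order would give a point of
infinite order on one `E_{De}` over `ℚ`, and these groups are finite by descent (`Y695`, `U621/X20`).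
-/

set_option autoImplicit false

set_option linter.unusedVariables false

open NumberField IsDedekindDomain

namespace Pool.Agent.Results.MP_29b22a_nt.TwistTowersX20

open scoped Classical

/-- The curve `E_D : y² = x³ - 11 D x² - D² x`, the quadratic twist by `D` of the curve `E_1` of
conductor `20`. -/
def E (D : ℤ) : WeierstrassCurve ℤ := ⟨0, -11 * D, 0, -D ^ 2, 0⟩

/-- `D = 1 mod 4` is squarefree and all its prime factors are `3` or `7` modulo `20`. -/
def InClass (D : ℤ) : Prop := Squarefree D ∧ D % 4 = 1 ∧
  ∀ p : ℕ, p.Prime → (p : ℤ) ∣ D → p % 20 = 3 ∨ p % 20 = 7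

/-- The curve given by the equation of `W` over the ring `R`. -/
abbrev base (W : WeierstrassCurve ℤ) (R : Type) [CommRing R] : WeierstrassCurve R :=
  W.map (Int.castRingHom R)

/-- The number of the affine points `(x, y)` over the ring `R`. -/
noncomputable def pts (W : WeierstrassCurve ℤ) (R : Type) [CommRing R] : ℕ :=
  Nat.card {P : R × R // (base W R).toAffine.Equation P.1 P.2}

section

variable {K : Type} [Field K] [NumberField K]

/-- `a_v = N v + 1 - #W(k_v)`, the points over the residue field `k_v` counted with the point at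
infinity. -/
noncomputable def a (W : WeierstrassCurve ℤ) (v : HeightOneSpectrum (𝓞 K)) : ℤ :=
  (Ideal.absNorm v.asIdeal : ℤ) - pts W (𝓞 K ⧸ v.asIdeal)

/-- The Euler factor of `L(W/K, s)` at `v` : `(1 - a_v N v^(-s) + N v^(1 - 2 s))⁻¹` if the
discriminant is a unit at `v`, and `(1 - a_v N v^(-s))⁻¹` otherwise. -/
noncomputable def factor (W : WeierstrassCurve ℤ) (s : ℂ) (v : HeightOneSpectrum (𝓞 K)) : ℂ :=
  (1 - (a W v : ℂ) * (Ideal.absNorm v.asIdeal : ℂ) ^ (-s) +
    if ((W.Δ : ℤ) : 𝓞 K) ∈ v.asIdeal then 0 else (Ideal.absNorm v.asIdeal : ℂ) ^ (1 - 2 * s))⁻¹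

end

/-- The rank of the group of the points over `K`. -/
noncomputable def rank (K : Type) [Field K] [NumberField K] (W : WeierstrassCurve ℤ) : ℕ :=
  Module.finrank ℤ (base W K).toAffine.Point

/-- `(2 y + a₁ x + a₃)² = 4 x³ + b₂ x² + 2 b₄ x + b₆` -/
noncomputable def psi (W : WeierstrassCurve ℤ) (x : ℝ) : ℝ :=
  4 * x ^ 3 + W.b₂ * x ^ 2 + 2 * W.b₄ * x + W.b₆

/-- The real period `∫_{E(ℝ)} |ω|`, `ω = dx / (2 y + a₁ x + a₃)`: each `x` with `psi x > 0` belongs to two
real points. -/
noncomputable def period (W : WeierstrassCurve ℤ) : ℝ :=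
  2 * ∫ x in {x : ℝ | 0 < psi W x}, (Real.sqrt (psi W x))⁻¹

/-- `σ² = 1` on `F` for all the automorphisms `σ` of `L`. -/
def IsMultiquadratic {L : Type} [Field L] [NumberField L] (F : IntermediateField ℚ L) : Prop :=
  ∀ x ∈ F, ∀ σ : L ≃ₐ[ℚ] L, σ (σ x) = x

/-- **Beilinson's conjecture at the centre for the restrictions of scalars of the `E_D`.** -/
theorem result (D : ℤ) (hD : InClass D) (n : ℕ) [NeZero n]
    (hn : ∀ p : ℕ, p.Prime → p ∣ n → p % 20 = 3 ∨ p % 20 = 7) (hco : n.Coprime D.natAbs)
    (L : Type) [Field L] [NumberField L] [IsCyclotomicExtension {n} ℚ L]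
    (F : IntermediateField ℚ L) (hF : IsMultiquadratic F) :
    -- the `L`-function, and its value at the centre
    (∃ Λ : ℂ → ℂ, Differentiable ℂ Λ ∧
      (∀ s : ℂ, 3 / 2 < s.re → HasProd (factor (K := F) (E D) s) (Λ s)) ∧ Λ 1 ≠ 0 ∧
      ∃ a b : ℤ, a ≠ 0 ∧ b ≠ 0 ∧
        b * Λ 1 = a * ((∏ᶠ e : {e : ℤ // Squarefree e ∧ ∃ z ∈ F, z ^ 2 = (e : L)},
          period (E (D * e.1)) : ℝ) : ℂ)) ∧
    -- the points
    rank F (E D) = 0 ∧ Finite (base (E D) F).toAffine.Point := by
  obtain ⟨⟨Λ, h1, h2, h3, a, b, h4, h5⟩, h6, h7⟩ :=
    Pool.Agent.U621.TWX.main (D := D) hD hn hco F hF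
  refine ⟨⟨Λ, h1, h2, h3, a, b, ?_, h4, ?_⟩, h6, h7⟩
  · rintro rfl
    rw [Int.cast_zero, zero_mul] at h5
    rcases mul_eq_zero.1 h5 with h | h
    · exact h3 h
    · exact h4 (by exact_mod_cast h)
  · rw [mul_comm]
    exact h5

end Pool.Agent.Results.MP_29b22a_nt.TwistTowersX20
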